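import Pool.Agent.Work.MP_0d53be_an.Full.L.Est1

/-!
# L/Est: three of seven directions, exponents controlled by two coefficients

There are `c > 0`, `B` such that for `0 < s`, `0 < μ ≤ 1`, `s ≤ c μ⁸`, `θ : Fin 7 → ℝ`, `‖β i‖ = 1`,
`|θ i - θ 0| ≤ s²`, `|θ i - θ j| ≥ s² μ` (`i ≠ j`) there is an injective `e : Fin 3 → Fin 7` with, for all
`r : Fin 3 → ℝ` and `x = Rl (θ ∘ e) (β ∘ e) r`: `‖x j‖ ≤ B ‖prj x‖` for all `j`, and
`c s⁶ μ⁸ |r i| ≤ ‖prj x‖`.

Proof. `est0` (constant `c₀`; choose `c ≤ c₀`, `c ≤ 1/1000`) gives `e`. Let `S l = SS … l`,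
`A = max_{l ≤ 3} |S l|`, `Y_n` as in `est1` (`n = j + 1`): `‖x j‖ = 2^(-n) ‖Y_n‖`, and
`‖Y_1‖ = ‖2 x 0‖ ≤ ‖prj x‖`, `‖Y_2‖ = ‖4 x 1‖ ≤ ‖prj x‖`.
Tails: the sum over `l ≥ 4` in `Y_n` has norm at most `∑_{l≥4} n^(l-1) (l+1) s^(l-3)/l! * A
≤ s n³ e^{ns} A`, since `(l+1)/l! ≤ 1/(l-4)!` and `n^(l-1) s^(l-3) = s n³ (ns)^(l-4)`.
For `n = 1, 2`: at most `s * 8 e^{2s} A ≤ 9 s A ≤ A/100`.
`Y_1 = S 0 + i S 1 - S 2/2 - i S 3/6 + O(A/100)`, `Y_2 = S 0/2 + i S 1 - S 2 - (2/3) i S 3 + O(A/100)`.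
Taking real and imaginary parts, `p₁ = S 0 - S 2/2`, `p₂ = S 0/2 - S 2`: `S 2 = (2/3) (p₁ - 2 p₂)`,
`S 0 = (4 p₁ - 2 p₂)/3`; `q₁ = S 1 - S 3/6`, `q₂ = S 1 - 2 S 3/3`: `S 3 = 2 (q₁ - q₂)`,
`S 1 = (4 q₁ - q₂)/3`. All `|p|, |q| ≤ ‖prj x‖ + A/100`, so `A ≤ 4 (‖prj x‖ + A/100)`, `A ≤ 5 ‖prj x‖`.
Hence `c₀ s⁶ μ⁸ |r i| ≤ A ≤ 5 ‖prj x‖` (take `c ≤ c₀/5`). And for all `n`:
`‖Y_n‖ ≤ (1/n + 1 + n/2 + n²/6 + s n³ e^{ns}) A ≤ 4 n³ e^{n/10} A`, so
`‖x j‖ ≤ 4 n³ (e^{1/10}/2)^n A ≤ B' A` with `B' = sup_n 4 n³ (e^{1/10}/2)^n < ∞`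
(`e^{1/10} ≤ 3/2`; `n³ (3/4)^n` is bounded), `B = 5 B'`.
-/

set_option autoImplicit false

namespace Pool.Agent.Work.MP_0d53be_an.Full

private theorem est_tail {s A n : ℝ} (hs : 0 < s) (hn : 1 ≤ n) (hA : 0 ≤ A) {S : ℕ → ℝ}
    (hS : ∀ l : ℕ, 4 ≤ l → |S l| ≤ (l + 1) * s ^ (l - 3) * A) {Y : ℂ}
    (hY : HasSum (fun l : ℕ => Complex.I ^ l * (n : ℂ) ^ l / (l.factorial * (n : ℂ)) * (S l : ℂ)) Y) :
    ‖Y - ((S 0 / n - n / 2 * S 2 : ℝ) + (S 1 - n ^ 2 / 6 * S 3 : ℝ) * Complex.I)‖ ≤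
      s * n ^ 3 * Real.exp (n * s) * A := by
  have hn0 : (0 : ℝ) < n := by linarith
  have hnC : (n : ℂ) ≠ 0 := Complex.ofReal_ne_zero.2 hn0.ne'
  have h1 := (hasSum_nat_add_iff' 4).2 hY
  have e1 : ∑ l ∈ Finset.range 4, Complex.I ^ l * (n : ℂ) ^ l / (l.factorial * (n : ℂ)) * (S l : ℂ) =
      ((S 0 / n - n / 2 * S 2 : ℝ) + (S 1 - n ^ 2 / 6 * S 3 : ℝ) * Complex.I) := by
    simp only [Finset.sum_range_succ, Finset.sum_range_zero, Nat.factorial]
    push_cast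
    have hI2 : Complex.I ^ 2 = -1 := Complex.I_sq
    have hI3 : Complex.I ^ 3 = -Complex.I := by rw [pow_succ, hI2]; ring
    rw [hI2, hI3]
    field_simp
    ring
  rw [e1] at h1
  have h2 : HasSum (fun m : ℕ => (s * n ^ 3 * A) * ((n * s) ^ m / (m.factorial : ℝ)))
      ((s * n ^ 3 * A) * Real.exp (n * s)) := by
    refine HasSum.mul_left _ ?_
    rw [Real.exp_eq_exp_ℝ]
    exact NormedSpace.expSeries_div_hasSum_exp (n * s)
  have h3 := HasSum.norm_le_of_bounded h1 h2 (by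
    intro m
    rw [norm_mul, norm_div, norm_mul, norm_mul, norm_pow, norm_pow, Complex.norm_I, one_pow, one_mul,
      Complex.norm_real, Complex.norm_real, Complex.norm_natCast, Real.norm_eq_abs, Real.norm_eq_abs,
      abs_of_pos hn0]
    have h4 := hS (m + 4) (by omega)
    have e2 : m + 4 - 3 = m + 1 := by omega
    rw [e2] at h4
    have hf : (0 : ℝ) < (m.factorial : ℝ) := Nat.cast_pos.2 (Nat.factorial_pos m)
    have hf4 : ((m + 4).factorial : ℝ) = (m + 4) * (m + 3) * (m + 2) * (m + 1) * m.factorial := by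
      have : (m + 4).factorial = (m + 4) * ((m + 3) * ((m + 2) * ((m + 1) * m.factorial))) := by
        simp only [Nat.factorial]
      rw [this]
      push_cast
      ring
    have hm : (0 : ℝ) ≤ m := Nat.cast_nonneg m
    calc n ^ (m + 4) / (((m + 4).factorial : ℝ) * n) * |S (m + 4)|
        ≤ n ^ (m + 4) / (((m + 4).factorial : ℝ) * n) *
          ((((m + 4 : ℕ) : ℝ) + 1) * s ^ (m + 1) * A) := by
          refine mul_le_mul_of_nonneg_left h4 (by positivity)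
      _ = (s * n ^ 3 * A) * ((n * s) ^ m / (m.factorial : ℝ)) *
          ((m + 5) / ((m + 4) * (m + 3) * (m + 2) * (m + 1))) := by
          rw [hf4]
          push_cast
          field_simp
          ring
      _ ≤ (s * n ^ 3 * A) * ((n * s) ^ m / (m.factorial : ℝ)) * 1 := by
          refine mul_le_mul_of_nonneg_left ?_ (by positivity)
          rw [div_le_one (by positivity)]
          nlinarith [mul_nonneg hm hm, mul_nonneg (mul_nonneg hm hm) hm,
            mul_nonneg (mul_nonneg hm hm) (mul_nonneg hm hm)]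
      _ = _ := mul_one _)
  calc _ ≤ _ := h3
    _ = _ := by ring

private theorem exp_le_of {x a : ℝ} (ha : a < 1) (h : x ≤ a) : Real.exp x ≤ 1 / (1 - a) := by
  have h1 : 1 - a ≤ Real.exp (-x) := by
    have := Real.add_one_le_exp (-x)
    linarith
  rw [le_div_iff₀ (by linarith)]
  calc Real.exp x * (1 - a) ≤ Real.exp x * Real.exp (-x) :=
        mul_le_mul_of_nonneg_left h1 (Real.exp_pos x).le
    _ = 1 := by rw [← Real.exp_add, add_neg_cancel, Real.exp_zero]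

theorem est : ∃ c : ℝ, 0 < c ∧ ∃ B : ℝ, ∀ s μ : ℝ, 0 < s → 0 < μ → μ ≤ 1 → s ≤ c * μ ^ 8 →
    ∀ (θ : Fin 7 → ℝ) (β : Fin 7 → ℂ), (∀ i, |θ i - θ 0| ≤ s ^ 2) →
    (∀ i j, i ≠ j → s ^ 2 * μ ≤ |θ i - θ j|) → (∀ i, ‖β i‖ = 1) →
    ∃ e : Fin 3 → Fin 7, Function.Injective e ∧ ∀ r : Fin 3 → ℝ,
      (∀ j, ‖Rl (fun i => θ (e i)) (fun i => β (e i)) r j‖ ≤
        B * ‖prj (Rl (fun i => θ (e i)) (fun i => β (e i)) r)‖) ∧
      ∀ i, c * s ^ 6 * μ ^ 8 * |r i| ≤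
        ‖prj (Rl (fun i => θ (e i)) (fun i => β (e i)) r)‖ := by
  obtain ⟨c₀, hc₀, H⟩ := est0
  have hbd : ∃ M : ℝ, ∀ n : ℕ, (n : ℝ) ^ 3 * (3 / 4 : ℝ) ^ n ≤ M := by
    have h := (tendsto_pow_const_mul_const_pow_of_abs_lt_one 3
      (r := (3 / 4 : ℝ)) (by rw [abs_of_pos] <;> norm_num)).bddAbove_range
    obtain ⟨M, hM⟩ := h
    exact ⟨M, fun n => hM ⟨n, rfl⟩⟩
  obtain ⟨M, hM⟩ := hbd
  have hM0 : 0 ≤ M := le_trans (by positivity) (hM 0)
  refine ⟨min (c₀ / 5) (1 / 1000), lt_min (by positivity) (by norm_num), 15 * M, ?_⟩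
  intro s μ hs hμ hμ1 hsc θ β hθ0 hθ hβ
  have hμ8 : μ ^ 8 ≤ 1 := pow_le_one₀ hμ.le hμ1
  have hμ80 : 0 < μ ^ 8 := by positivity
  have hs1 : s ≤ 1 / 1000 := by
    calc s ≤ min (c₀ / 5) (1 / 1000) * μ ^ 8 := hsc
      _ ≤ (1 / 1000) * 1 := mul_le_mul (min_le_right _ _) hμ8 hμ80.le (by norm_num)
      _ = 1 / 1000 := mul_one _
  have hs2 : s ≤ c₀ * μ ^ 8 := by
    calc s ≤ min (c₀ / 5) (1 / 1000) * μ ^ 8 := hsc
      _ ≤ c₀ * μ ^ 8 := mul_le_mul_of_nonneg_right ((min_le_left _ _).trans (by linarith)) hμ80.le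
  obtain ⟨e, he, He⟩ := H s μ hs hμ hμ1 hs2 (fun i => θ i - θ 0) (fun i => (β i).re)
    (fun i => (β i).im) hθ0 (fun i j hij => by
      have := hθ i j hij
      rwa [show θ i - θ 0 - (θ j - θ 0) = θ i - θ j by ring]) (fun i => by
      have h1 := Complex.sq_norm (β i)
      rw [hβ i, Complex.normSq_apply] at h1
      nlinarith)
  refine ⟨e, he, ?_⟩
  intro r
  set S : ℕ → ℝ := SS (fun i => θ i - θ 0) (fun i => (β i).re) (fun i => (β i).im) e r with hSdef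
  set x : Ex := Rl (fun i => θ (e i)) (fun i => β (e i)) r with hx
  set A : ℝ := max (max |S 0| |S 1|) (max |S 2| |S 3|) with hA
  have hA0 : 0 ≤ A := (abs_nonneg _).trans ((le_max_left _ _).trans (le_max_left _ _))
  have a0 : |S 0| ≤ A := (le_max_left _ _).trans (le_max_left _ _)
  have a1 : |S 1| ≤ A := (le_max_right _ _).trans (le_max_left _ _)
  have a2 : |S 2| ≤ A := (le_max_left _ _).trans (le_max_right _ _)
  have a3 : |S 3| ≤ A := (le_max_right _ _).trans (le_max_right _ _)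
  obtain ⟨hT, hR⟩ := He r A (by
    intro l hl
    interval_cases l
    exacts [a0, a1, a2, a3])
  -- coordinates
  have hco : ∀ j : ℕ, ∃ Y : ℂ, ‖x j‖ = (1 / 2) ^ (j + 1) * ‖Y‖ ∧
      ‖Y - ((S 0 / ((j : ℝ) + 1) - ((j : ℝ) + 1) / 2 * S 2 : ℝ) +
        (S 1 - ((j : ℝ) + 1) ^ 2 / 6 * S 3 : ℝ) * Complex.I)‖ ≤
      s * ((j : ℝ) + 1) ^ 3 * Real.exp (((j : ℝ) + 1) * s) * A := by
    intro j
    obtain ⟨Y, h1, h2⟩ := est1 θ β e r j
    refine ⟨Y, ?_, ?_⟩
    · rw [hx, h1, norm_mul, norm_mul, norm_pow, norm_neg, norm_one, one_pow, one_mul, norm_pow,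
        norm_div, Complex.norm_exp_ofReal_mul_I, Complex.norm_ofNat]
    · have hj : (1 : ℝ) ≤ (j : ℝ) + 1 := by
        have : (0 : ℝ) ≤ j := Nat.cast_nonneg j
        linarith
      refine est_tail hs hj hA0 hT ?_
      have e3 : (((j : ℝ) + 1 : ℝ) : ℂ) = (j : ℂ) + 1 := by push_cast; rfl
      rw [e3]
      exact h2
  set N : ℝ := ‖prj x‖ with hN
  have hAN : A ≤ 5 * N := by
    obtain ⟨Y1, h1, h2⟩ := hco 0
    obtain ⟨Y2, h3, h4⟩ := hco 1
    have n1 : ‖Y1‖ ≤ N := by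
      have h5 : ‖(prj x).1‖ ≤ N := norm_fst_le _
      rw [prj_apply] at h5
      change ‖2 * x 0‖ ≤ N at h5
      rw [norm_mul, h1, Complex.norm_ofNat] at h5
      norm_num at h5
      linarith
    have n2 : ‖Y2‖ ≤ N := by
      have h5 : ‖(prj x).2‖ ≤ N := norm_snd_le _
      rw [prj_apply] at h5
      change ‖4 * x 1‖ ≤ N at h5
      rw [norm_mul, h3, Complex.norm_ofNat] at h5
      norm_num at h5
      linarith
    have b1 : s * (((0 : ℕ) : ℝ) + 1) ^ 3 * Real.exp ((((0 : ℕ) : ℝ) + 1) * s) * A ≤ A / 100 := by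
      have h6 := exp_le_of (x := (((0 : ℕ) : ℝ) + 1) * s) (a := 1 / 2) (by norm_num)
        (by push_cast; linarith)
      have h7 : s * (((0 : ℕ) : ℝ) + 1) ^ 3 * Real.exp ((((0 : ℕ) : ℝ) + 1) * s) ≤
          (1 / 1000) * 1 * (1 / (1 - 1 / 2)) := by
        refine mul_le_mul (mul_le_mul hs1 (by norm_num) (by positivity) (by norm_num)) h6
          (Real.exp_pos _).le (by norm_num)
      have := mul_le_mul_of_nonneg_right h7 hA0
      refine this.trans ?_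
      norm_num
      linarith
    have b2 : s * (((1 : ℕ) : ℝ) + 1) ^ 3 * Real.exp ((((1 : ℕ) : ℝ) + 1) * s) * A ≤ A / 100 := by
      have h6 := exp_le_of (x := (((1 : ℕ) : ℝ) + 1) * s) (a := 1 / 10) (by norm_num)
        (by push_cast; linarith)
      have h7 : s * (((1 : ℕ) : ℝ) + 1) ^ 3 * Real.exp ((((1 : ℕ) : ℝ) + 1) * s) ≤
          (1 / 1000) * 8 * (1 / (1 - 1 / 10)) := by
        refine mul_le_mul (mul_le_mul hs1 (by norm_num) (by positivity) (by norm_num)) h6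
          (Real.exp_pos _).le (by norm_num)
      have := mul_le_mul_of_nonneg_right h7 hA0
      refine this.trans ?_
      norm_num
      linarith
    have c1 := h2.trans b1
    have c2 := h4.trans b2
    have re1 := (Complex.abs_re_le_norm _).trans c1
    have im1 := (Complex.abs_im_le_norm _).trans c1
    have re2 := (Complex.abs_re_le_norm _).trans c2
    have im2 := (Complex.abs_im_le_norm _).trans c2
    have y1r := (Complex.abs_re_le_norm Y1).trans n1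
    have y1i := (Complex.abs_im_le_norm Y1).trans n1
    have y2r := (Complex.abs_re_le_norm Y2).trans n2
    have y2i := (Complex.abs_im_le_norm Y2).trans n2
    simp only [Complex.sub_re, Complex.sub_im, Complex.add_re, Complex.add_im, Complex.ofReal_re,
      Complex.ofReal_im, Complex.re_ofReal_mul, Complex.im_ofReal_mul, Complex.I_re, Complex.I_im,
      mul_zero, mul_one, add_zero, zero_add] at re1 im1 re2 im2
    rw [abs_le] at re1 im1 re2 im2 y1r y1i y2r y2i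
    norm_num at re1 im1 re2 im2
    have hA4 : A ≤ 4 * (N + A / 100) := by
      rw [hA]
      refine max_le (max_le ?_ ?_) (max_le ?_ ?_)
      · rw [← hA, abs_le]; constructor <;> linarith [re1.1, re1.2, re2.1, re2.2]
      · rw [← hA, abs_le]; constructor <;> linarith [im1.1, im1.2, im2.1, im2.2]
      · rw [← hA, abs_le]; constructor <;> linarith [re1.1, re1.2, re2.1, re2.2]
      · rw [← hA, abs_le]; constructor <;> linarith [im1.1, im1.2, im2.1, im2.2]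
    have : 0 ≤ N := norm_nonneg _
    linarith
  have hN0 : 0 ≤ N := norm_nonneg _
  refine ⟨?_, ?_⟩
  · intro j
    obtain ⟨Y, h1, h2⟩ := hco j
    rw [h1]
    set n : ℝ := (j : ℝ) + 1 with hn
    have hn1 : 1 ≤ n := by
      have : (0 : ℝ) ≤ j := Nat.cast_nonneg j
      linarith
    have hn0 : 0 < n := by linarith
    have hexp : Real.exp (n * s) ≤ (3 / 2) ^ (j + 1) := by
      have h6 := exp_le_of (x := s) (a := 1 / 3) (by norm_num) (by linarith)
      have e4 : Real.exp (n * s) = Real.exp s ^ (j + 1) := by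
        rw [← Real.exp_nat_mul, hn]
        push_cast
        rfl
      rw [e4]
      refine pow_le_pow_left₀ (Real.exp_pos s).le (h6.trans (by norm_num)) _
    have h32 : (1 : ℝ) ≤ (3 / 2) ^ (j + 1) := one_le_pow₀ (by norm_num)
    have hY : ‖Y‖ ≤ 3 * n ^ 3 * (3 / 2) ^ (j + 1) * A := by
      have h7 : ‖Y‖ ≤ ‖((S 0 / n - n / 2 * S 2 : ℝ) + (S 1 - n ^ 2 / 6 * S 3 : ℝ) * Complex.I : ℂ)‖
          + s * n ^ 3 * Real.exp (n * s) * A := by
        have := norm_le_norm_add_norm_sub'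
          Y ((S 0 / n - n / 2 * S 2 : ℝ) + (S 1 - n ^ 2 / 6 * S 3 : ℝ) * Complex.I : ℂ)
        linarith
      have h8 : ‖((S 0 / n - n / 2 * S 2 : ℝ) + (S 1 - n ^ 2 / 6 * S 3 : ℝ) * Complex.I : ℂ)‖ ≤
          |S 0 / n - n / 2 * S 2| + |S 1 - n ^ 2 / 6 * S 3| := by
        refine (norm_add_le _ _).trans ?_
        rw [norm_mul, Complex.norm_real, Complex.norm_real, Complex.norm_I, mul_one,
          Real.norm_eq_abs, Real.norm_eq_abs]
      have h9 : |S 0 / n - n / 2 * S 2| ≤ A + n / 2 * A := by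
        refine (abs_sub _ _).trans ?_
        rw [abs_div, abs_mul, abs_of_pos hn0, abs_of_pos (by positivity : 0 < n / 2)]
        refine add_le_add ?_ (mul_le_mul_of_nonneg_left a2 (by positivity))
        exact (div_le_self (abs_nonneg _) hn1).trans a0
      have h10 : |S 1 - n ^ 2 / 6 * S 3| ≤ A + n ^ 2 / 6 * A := by
        refine (abs_sub _ _).trans ?_
        rw [abs_mul, abs_of_pos (by positivity : 0 < n ^ 2 / 6)]
        exact add_le_add a1 (mul_le_mul_of_nonneg_left a3 (by positivity))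
      have h11 : s * n ^ 3 * Real.exp (n * s) * A ≤ 1 / 1000 * n ^ 3 * (3 / 2) ^ (j + 1) * A := by
        refine mul_le_mul_of_nonneg_right ?_ hA0
        exact mul_le_mul (mul_le_mul_of_nonneg_right hs1 (by positivity)) hexp
          (Real.exp_pos _).le (by positivity)
      have h12 : A + n / 2 * A + (A + n ^ 2 / 6 * A) ≤ (8 / 3) * n ^ 3 * A := by
        have q1 : 1 ≤ n ^ 3 := one_le_pow₀ hn1
        have q2 : n ≤ n ^ 3 := by nlinarith [mul_nonneg (sub_nonneg.2 hn1) hn0.le]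
        have q3 : n ^ 2 ≤ n ^ 3 := by nlinarith [mul_nonneg (sub_nonneg.2 hn1) (sq_nonneg n)]
        nlinarith
      have h13 : (8 / 3) * n ^ 3 * A ≤ (8 / 3) * n ^ 3 * (3 / 2) ^ (j + 1) * A := by
        have : 0 ≤ (8 / 3) * n ^ 3 * A := by positivity
        nlinarith
      have h14 : 0 ≤ n ^ 3 * (3 / 2) ^ (j + 1) * A := by positivity
      calc ‖Y‖ ≤ _ := h7
        _ ≤ (A + n / 2 * A + (A + n ^ 2 / 6 * A)) + 1 / 1000 * n ^ 3 * (3 / 2) ^ (j + 1) * A := by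
            linarith
        _ ≤ (8 / 3) * n ^ 3 * (3 / 2) ^ (j + 1) * A + 1 / 1000 * n ^ 3 * (3 / 2) ^ (j + 1) * A := by
            linarith
        _ ≤ _ := by nlinarith
    calc (1 / 2) ^ (j + 1) * ‖Y‖ ≤ (1 / 2) ^ (j + 1) * (3 * n ^ 3 * (3 / 2) ^ (j + 1) * A) :=
          mul_le_mul_of_nonneg_left hY (by positivity)
      _ = 3 * (n ^ 3 * (3 / 4) ^ (j + 1)) * A := by
          rw [show (3 / 4 : ℝ) = 1 / 2 * (3 / 2) by norm_num, mul_pow]
          ring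
      _ ≤ 3 * M * A := by
          have h15 := hM (j + 1)
          push_cast at h15
          refine mul_le_mul_of_nonneg_right (mul_le_mul_of_nonneg_left h15 (by norm_num)) hA0
      _ ≤ 3 * M * (5 * N) := mul_le_mul_of_nonneg_left hAN (by positivity)
      _ = 15 * M * N := by ring
  · intro i
    have h1 := hR i
    have h2 : min (c₀ / 5) (1 / 1000) * s ^ 6 * μ ^ 8 * |r i| ≤ c₀ / 5 * s ^ 6 * μ ^ 8 * |r i| := by
      refine mul_le_mul_of_nonneg_right ?_ (abs_nonneg _)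
      refine mul_le_mul_of_nonneg_right ?_ hμ80.le
      exact mul_le_mul_of_nonneg_right (min_le_left _ _) (by positivity)
    have h3 : c₀ / 5 * s ^ 6 * μ ^ 8 * |r i| = (c₀ * s ^ 6 * μ ^ 8 * |r i|) / 5 := by ring
    rw [h3] at h2
    linarith

end Pool.Agent.Work.MP_0d53be_an.Full
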