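import Pool.Agent.Work.MP_0d53be_an.Full.L.Wedge

/-!
# L/Est0: the moments

`SS φ x y e r l = ∑_i r_i (x_{e i} φ_{e i}^l + l y_{e i} φ_{e i}^(l-1))`. There is `c > 0` such that for
`0 < s ≤ c μ⁸`, `0 < μ ≤ 1`, `φ x y : Fin 7 → ℝ` with `|φ i| ≤ s²`, `|φ i - φ j| ≥ s² μ` (`i ≠ j`),
`x i² + y i² = 1` there is an injective `e : Fin 3 → Fin 7` such that for all `r` and `A` with
`|SS l| ≤ A` for `l ≤ 3`: `|SS l| ≤ (l+1) s^(l-3) A` for `l ≥ 4`, and `c s⁶ μ⁸ |r i| ≤ A`.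

Proof. Let `c₀` be the constant of `wedge`, `c = min (c₀/3) 1`; then `s ≤ c ≤ 1`, `α = s² ≤ 1`.
`u i = φ i/α`, `y' i = y i/α`, `N i = √(x i² + y' i²)`, `1 ≤ N i` (as `α ≤ 1`), `x̂ = x/N`, `ŷ = y'/N`.
`wedge` for `μ, u, x̂, ŷ` gives `e`. For `r` let `r̂ i = r i N_{e i}`, `ρ = max |r̂ i|`,
`Ŝ l = ∑ r̂_i (x̂ u^l + l ŷ u^(l-1))`. Then `SS l = α^l Ŝ l` (for `l ≥ 1`: `r (x φ^l + l y φ^(l-1)) =
r (x α^l u^l + l (α y') α^(l-1) u^(l-1))`; `l = 0` is clear). `|Ŝ l| ≤ (l+1) * 3 ρ`. By `wedge`, for the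
index with `|r̂ i| = ρ`: `c₀ μ⁸ ρ ≤ |Ŝ l₀| = α^(-l₀) |SS l₀| ≤ α^(-3) A` for some `l₀ ≤ 3`. So
`c₀ μ⁸ ρ α³ ≤ A`; as `|r i| ≤ ρ`: `c s⁶ μ⁸ |r i| ≤ A`. For `l ≥ 4`:
`|SS l| ≤ α^l (l+1) 3 ρ ≤ (l+1) α^(l-3) (3/(c₀ μ⁸)) A ≤ (l+1) α^(l-3) s^(-1) A`
(`s ≤ c₀ μ⁸/3`), and `α^(l-3) s^(-1) = s^(2(l-3) - 1) ≤ s^(l-3)` as `s ≤ 1`, `l - 3 ≥ 1`.
-/

set_option autoImplicit false

namespace Pool.Agent.Work.MP_0d53be_an.Full

/-- The moments. -/
noncomputable def SS (φ x y : Fin 7 → ℝ) (e : Fin 3 → Fin 7) (r : Fin 3 → ℝ) (l : ℕ) : ℝ :=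
  ∑ i, r i * (x (e i) * φ (e i) ^ l + l * y (e i) * φ (e i) ^ (l - 1))

theorem est0 : ∃ c : ℝ, 0 < c ∧ ∀ s μ : ℝ, 0 < s → 0 < μ → μ ≤ 1 → s ≤ c * μ ^ 8 →
    ∀ φ x y : Fin 7 → ℝ, (∀ i, |φ i| ≤ s ^ 2) → (∀ i j, i ≠ j → s ^ 2 * μ ≤ |φ i - φ j|) →
    (∀ i, x i ^ 2 + y i ^ 2 = 1) →
    ∃ e : Fin 3 → Fin 7, Function.Injective e ∧ ∀ (r : Fin 3 → ℝ) (A : ℝ),
      (∀ l : ℕ, l ≤ 3 → |SS φ x y e r l| ≤ A) →
      (∀ l : ℕ, 4 ≤ l → |SS φ x y e r l| ≤ (l + 1) * s ^ (l - 3) * A) ∧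
      ∀ i, c * s ^ 6 * μ ^ 8 * |r i| ≤ A := by
  obtain ⟨c₀, hc₀, hw⟩ := wedge
  refine ⟨min (c₀ / 3) 1, lt_min (by positivity) one_pos, ?_⟩
  intro s μ hs hμ hμ1 hsc φ x y hφ hd h1
  have hμ8 : μ ^ 8 ≤ 1 := pow_le_one₀ hμ.le hμ1
  have hμ80 : 0 < μ ^ 8 := by positivity
  have hmin0 : 0 < min (c₀ / 3) 1 := lt_min (by positivity) one_pos
  have hs1 : s ≤ 1 := by
    refine hsc.trans ?_
    have h2 : min (c₀ / 3) 1 * μ ^ 8 ≤ 1 * 1 :=
      mul_le_mul (min_le_right _ _) hμ8 hμ80.le zero_le_one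
    linarith
  have hs3 : 3 * s ≤ c₀ * μ ^ 8 := by
    have h2 : min (c₀ / 3) 1 * μ ^ 8 ≤ c₀ / 3 * μ ^ 8 :=
      mul_le_mul_of_nonneg_right (min_le_left _ _) hμ80.le
    linarith
  set α : ℝ := s ^ 2 with hα
  have hα0 : 0 < α := by positivity
  have hα1 : α ≤ 1 := pow_le_one₀ hs.le hs1
  set N : Fin 7 → ℝ := fun i => Real.sqrt (x i ^ 2 + (y i / α) ^ 2) with hN
  have hNsq : ∀ i, 1 ≤ x i ^ 2 + (y i / α) ^ 2 := by
    intro i
    have h2 : y i ^ 2 ≤ (y i / α) ^ 2 := by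
      rw [div_pow, le_div_iff₀ (by positivity)]
      have h3 : α ^ 2 ≤ 1 := pow_le_one₀ hα0.le hα1
      nlinarith [sq_nonneg (y i)]
    linarith [h1 i]
  have hN1 : ∀ i, 1 ≤ N i := by
    intro i
    rw [hN]
    exact Real.one_le_sqrt.2 (hNsq i)
  have hNN : ∀ i, N i ^ 2 = x i ^ 2 + (y i / α) ^ 2 := by
    intro i
    rw [hN]
    exact Real.sq_sqrt (by linarith [hNsq i])
  have hN0 : ∀ i, N i ≠ 0 := fun i => by
    have := hN1 i
    positivity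
  obtain ⟨e, he, hr⟩ := hw μ hμ hμ1 (fun i => φ i / α) (fun i => x i / N i)
    (fun i => y i / α / N i)
    (fun i => by
      rw [abs_div, abs_of_pos hα0, div_le_one hα0]
      exact hφ i)
    (fun i j hij => by
      rw [← sub_div, abs_div, abs_of_pos hα0, le_div_iff₀ hα0, mul_comm]
      exact hd i j hij)
    (fun i => by
      rw [div_pow (x i), div_pow (y i / α), ← add_div, ← hNN, div_self (pow_ne_zero 2 (hN0 i))])
  refine ⟨e, he, ?_⟩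
  intro r A hA
  have hA0 : 0 ≤ A := (abs_nonneg _).trans (hA 0 (by norm_num))
  -- the normalised sums
  have hS : ∀ l : ℕ, α ^ l * ∑ i, (r i * N (e i)) * (x (e i) / N (e i) * (φ (e i) / α) ^ l +
      l * (y (e i) / α / N (e i)) * (φ (e i) / α) ^ (l - 1)) = SS φ x y e r l := by
    intro l
    unfold SS
    rw [Finset.mul_sum]
    refine Finset.sum_congr rfl fun i _ => ?_
    have h2 := hN0 (e i)
    rcases Nat.eq_zero_or_pos l with h3 | h3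
    · subst h3
      simp only [pow_zero, Nat.cast_zero, zero_mul, add_zero, mul_one, one_mul]
      field_simp
    · obtain ⟨k, rfl⟩ := Nat.exists_eq_add_of_le' h3
      rw [Nat.add_sub_cancel, div_pow, div_pow, pow_succ α k]
      field_simp
  have hrb : ∀ i, c₀ * μ ^ 8 * (α ^ 3 * |r i * N (e i)|) ≤ A := by
    intro i
    obtain ⟨l, hl3, hl⟩ := hr (fun i => r i * N (e i)) i
    have h2 := hA l hl3
    rw [← hS l, abs_mul, abs_of_pos (pow_pos hα0 l)] at h2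
    have h3 : α ^ 3 ≤ α ^ l := pow_le_pow_of_le_one hα0.le hα1 hl3
    have h4 : α ^ 3 * (c₀ * μ ^ 8 * |r i * N (e i)|) ≤
        α ^ l * |∑ i, (r i * N (e i)) * (x (e i) / N (e i) * (φ (e i) / α) ^ l +
          l * (y (e i) / α / N (e i)) * (φ (e i) / α) ^ (l - 1))| :=
      mul_le_mul h3 hl (by positivity) (by positivity)
    calc c₀ * μ ^ 8 * (α ^ 3 * |r i * N (e i)|) = α ^ 3 * (c₀ * μ ^ 8 * |r i * N (e i)|) := by
          ring
      _ ≤ _ := h4.trans h2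
  constructor
  · intro l hl
    obtain ⟨k, rfl⟩ := Nat.exists_eq_add_of_le' hl
    have h3s : ∀ i, 3 * s * (α ^ 3 * |r i * N (e i)|) ≤ A := by
      intro i
      refine le_trans (mul_le_mul_of_nonneg_right hs3 (by positivity)) (hrb i)
    have hsumb : |∑ i, (r i * N (e i)) * (x (e i) / N (e i) * (φ (e i) / α) ^ (k + 4) +
        ((k + 4 : ℕ) : ℝ) * (y (e i) / α / N (e i)) * (φ (e i) / α) ^ (k + 4 - 1))| ≤
        ∑ i, |r i * N (e i)| * (((k + 4 : ℕ) : ℝ) + 1) := by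
      refine (Finset.abs_sum_le_sum_abs _ _).trans (Finset.sum_le_sum fun i _ => ?_)
      rw [abs_mul]
      refine mul_le_mul_of_nonneg_left ?_ (abs_nonneg _)
      have hu1 : |φ (e i) / α| ≤ 1 := by
        rw [abs_div, abs_of_pos hα0, div_le_one hα0]
        exact hφ (e i)
      have hn := hNN (e i)
      have hx1 : |x (e i) / N (e i)| ≤ 1 := by
        rw [abs_div, abs_of_pos (by linarith [hN1 (e i)] : 0 < N (e i)),
          div_le_one (by linarith [hN1 (e i)])]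
        refine abs_le_of_sq_le_sq ?_ (by linarith [hN1 (e i)])
        rw [hn]
        nlinarith [sq_nonneg (y (e i) / α)]
      have hy1 : |y (e i) / α / N (e i)| ≤ 1 := by
        rw [abs_div, abs_of_pos (by linarith [hN1 (e i)] : 0 < N (e i)),
          div_le_one (by linarith [hN1 (e i)])]
        refine abs_le_of_sq_le_sq ?_ (by linarith [hN1 (e i)])
        rw [hn]
        nlinarith [sq_nonneg (x (e i))]
      have e1 : |x (e i) / N (e i) * (φ (e i) / α) ^ (k + 4)| ≤ 1 := by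
        rw [abs_mul, abs_pow]
        exact mul_le_one₀ hx1 (by positivity) (pow_le_one₀ (abs_nonneg _) hu1)
      have e2 : |y (e i) / α / N (e i) * (φ (e i) / α) ^ (k + 4 - 1)| ≤ 1 := by
        rw [abs_mul, abs_pow]
        exact mul_le_one₀ hy1 (by positivity) (pow_le_one₀ (abs_nonneg _) hu1)
      have e3 : |((k + 4 : ℕ) : ℝ) * (y (e i) / α / N (e i)) * (φ (e i) / α) ^ (k + 4 - 1)| ≤
          ((k + 4 : ℕ) : ℝ) := by
        rw [mul_assoc, abs_mul, Nat.abs_cast]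
        have h5 : (0 : ℝ) ≤ ((k + 4 : ℕ) : ℝ) := Nat.cast_nonneg _
        nlinarith
      exact (abs_add_le _ _).trans (by linarith)
    rw [← hS (k + 4), abs_mul, abs_of_pos (pow_pos hα0 _)]
    have hk1 : k + 4 - 3 = k + 1 := by omega
    rw [hk1]
    have hsum3 : s * (α ^ 3 * ∑ i, |r i * N (e i)|) ≤ A := by
      rw [Fin.sum_univ_three]
      have a0 := h3s 0
      have a1 := h3s 1
      have a2 := h3s 2
      linarith
    have hpow : α ^ (k + 1) ≤ s ^ (k + 1) * s := by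
      rw [hα, ← pow_mul, ← pow_succ]
      exact pow_le_pow_of_le_one hs.le hs1 (by omega)
    have hk0 : (0 : ℝ) ≤ ((k + 4 : ℕ) : ℝ) + 1 := by positivity
    have hs0 : 0 ≤ ∑ i, |r i * N (e i)| := Finset.sum_nonneg fun i _ => abs_nonneg _
    calc α ^ (k + 4) * |∑ i, (r i * N (e i)) * (x (e i) / N (e i) * (φ (e i) / α) ^ (k + 4) +
          ((k + 4 : ℕ) : ℝ) * (y (e i) / α / N (e i)) * (φ (e i) / α) ^ (k + 4 - 1))|
        ≤ α ^ (k + 4) * ∑ i, |r i * N (e i)| * (((k + 4 : ℕ) : ℝ) + 1) :=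
          mul_le_mul_of_nonneg_left hsumb (by positivity)
      _ = (((k + 4 : ℕ) : ℝ) + 1) * (α ^ (k + 1) * (α ^ 3 * ∑ i, |r i * N (e i)|)) := by
          rw [← Finset.sum_mul]
          ring
      _ ≤ (((k + 4 : ℕ) : ℝ) + 1) * ((s ^ (k + 1) * s) * (α ^ 3 * ∑ i, |r i * N (e i)|)) :=
          mul_le_mul_of_nonneg_left (mul_le_mul_of_nonneg_right hpow (by positivity)) hk0
      _ = (((k + 4 : ℕ) : ℝ) + 1) * s ^ (k + 1) * (s * (α ^ 3 * ∑ i, |r i * N (e i)|)) := by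
          ring
      _ ≤ (((k + 4 : ℕ) : ℝ) + 1) * s ^ (k + 1) * A :=
          mul_le_mul_of_nonneg_left hsum3 (by positivity)
  · intro i
    refine le_trans ?_ (hrb i)
    have h2 : |r i| ≤ |r i * N (e i)| := by
      rw [abs_mul, abs_of_pos (by linarith [hN1 (e i)] : 0 < N (e i))]
      nlinarith [hN1 (e i), abs_nonneg (r i)]
    have h3 : min (c₀ / 3) 1 ≤ c₀ := (min_le_left _ _).trans (by linarith)
    have h4 : s ^ 6 = α ^ 3 := by
      rw [hα]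
      ring
    rw [h4]
    calc min (c₀ / 3) 1 * α ^ 3 * μ ^ 8 * |r i| = min (c₀ / 3) 1 * (μ ^ 8 * (α ^ 3 * |r i|)) := by
          ring
      _ ≤ c₀ * (μ ^ 8 * (α ^ 3 * |r i * N (e i)|)) :=
          mul_le_mul h3 (mul_le_mul_of_nonneg_left (mul_le_mul_of_nonneg_left h2 (by positivity))
            hμ80.le) (by positivity) hc₀.le
      _ = _ := by ring

end Pool.Agent.Work.MP_0d53be_an.Full
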