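import Pool.Agent.Work.MP_0d53be_an.Full.L.RDef
import Pool.Agent.Work.MP_0d53be_an.Full.L.Est0

/-!
# L/Est1: the coordinates of `Rl` in terms of the moments

Let `θ : Fin 7 → ℝ`, `β : Fin 7 → ℂ`, `φ i = θ i - θ 0`, `x i = Re β i`, `y i = Im β i`,
`e : Fin 3 → Fin 7`, `r : Fin 3 → ℝ`, `n = j + 1`. Then
`Rl (θ ∘ e) (β ∘ e) r j = (-1)^j (e^{iθ₀}/2)^n Y`, `Y = ∑_l (i^l n^l/(l! n)) SS l` (`HasSum`).

Proof. `Ewf (θ i) (r β) j = (-1)^j (e^{iθ_i}/2)^n (r x_i/n + i r y_i)`, `e^{iθ_i n} = e^{iθ₀n} e^{iφ_i n}`,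
`e^{iφ_i n} = ∑_l (i n φ_i)^l/l!` (`NormedSpace.expSeries_div_hasSum_exp` / `Complex.hasSum_exp`...).
`e^{iφn} (x/n + i y) = ∑_l (i n)^l φ^l/l! * x/n + i ∑_l (i n φ)^l/l! * y`; in the second series shift
`l ↦ l - 1`: `i (i n φ)^(l-1)/(l-1)! y = (i n)^l/(l! n) * l φ^(l-1) y` (the term `l = 0` is `0`). So the
sum is `∑_l ((i n)^l/(l! n)) (x φ^l + l y φ^(l-1))`; sum over the three indices with weights `r_i`.
-/

set_option autoImplicit false

namespace Pool.Agent.Work.MP_0d53be_an.Full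

private theorem est_hs (n : ℂ) (hn : n ≠ 0) (φ x y : ℝ) :
    HasSum (fun l : ℕ => Complex.I ^ l * n ^ l / (l.factorial * n) *
      ((x * φ ^ l + l * y * φ ^ (l - 1) : ℝ) : ℂ))
      (Complex.exp (φ * Complex.I * n) * ((x : ℂ) / n + (y : ℂ) * Complex.I)) := by
  have h0 : HasSum (fun l : ℕ => (φ * Complex.I * n) ^ l / (l.factorial : ℂ)) (Complex.exp (φ * Complex.I * n)) := by
    have := NormedSpace.expSeries_div_hasSum_exp (φ * Complex.I * n)
    rwa [← Complex.exp_eq_exp_ℂ] at this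
  have h1 : HasSum (fun l : ℕ => (φ * Complex.I * n) ^ l / (l.factorial : ℂ) * ((x : ℂ) / n))
      (Complex.exp (φ * Complex.I * n) * ((x : ℂ) / n)) := h0.mul_right _
  have h2 : HasSum (fun l : ℕ => Complex.I ^ l * n ^ l / (l.factorial * n) * ((l * y * φ ^ (l - 1) : ℝ) : ℂ))
      (Complex.exp (φ * Complex.I * n) * ((y : ℂ) * Complex.I)) := by
    have h3 : HasSum (fun l : ℕ => Complex.I ^ (l + 1) * n ^ (l + 1) / ((l + 1).factorial * n) *
        ((((l + 1 : ℕ) : ℝ) * y * φ ^ (l + 1 - 1) : ℝ) : ℂ)) (Complex.exp (φ * Complex.I * n) * ((y : ℂ) * Complex.I)) := by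
      have h5 := h0.mul_right ((y : ℂ) * Complex.I)
      have h6 : (fun l : ℕ => Complex.I ^ (l + 1) * n ^ (l + 1) / ((l + 1).factorial * n) *
          ((((l + 1 : ℕ) : ℝ) * y * φ ^ (l + 1 - 1) : ℝ) : ℂ)) =
          fun l : ℕ => (φ * Complex.I * n) ^ l / (l.factorial : ℂ) * ((y : ℂ) * Complex.I) := by
        funext l
        rw [Nat.factorial_succ]
        have hl : (l.factorial : ℂ) ≠ 0 := Nat.cast_ne_zero.mpr l.factorial_ne_zero
        have hl1 : ((l : ℂ) + 1) ≠ 0 := Nat.cast_add_one_ne_zero l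
        rw [Nat.add_sub_cancel]
        push_cast
        field_simp
        rw [mul_pow, mul_pow]
        ring
      rw [h6]
      exact h5
    have h4 := (hasSum_nat_add_iff (f := fun l : ℕ => Complex.I ^ l * n ^ l / (l.factorial * n) *
      ((l * y * φ ^ (l - 1) : ℝ) : ℂ)) 1).mp h3
    simpa using h4
  have h7 : (fun l : ℕ => Complex.I ^ l * n ^ l / (l.factorial * n) *
      ((x * φ ^ l + l * y * φ ^ (l - 1) : ℝ) : ℂ)) =
      fun l : ℕ => (φ * Complex.I * n) ^ l / (l.factorial : ℂ) * ((x : ℂ) / n) +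
        Complex.I ^ l * n ^ l / (l.factorial * n) * ((l * y * φ ^ (l - 1) : ℝ) : ℂ) := by
    funext l
    have hl : (l.factorial : ℂ) ≠ 0 := Nat.cast_ne_zero.mpr l.factorial_ne_zero
    push_cast
    field_simp
    try ring
  rw [h7, mul_add]
  exact h1.add h2

theorem est1 (θ : Fin 7 → ℝ) (β : Fin 7 → ℂ) (e : Fin 3 → Fin 7) (r : Fin 3 → ℝ) (j : ℕ) :
    ∃ Y : ℂ, Rl (fun i => θ (e i)) (fun i => β (e i)) r j =
        (-1) ^ j * (Complex.exp (θ 0 * Complex.I) / 2) ^ (j + 1) * Y ∧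
      HasSum (fun l : ℕ => Complex.I ^ l * ((j : ℂ) + 1) ^ l / (l.factorial * ((j : ℂ) + 1)) *
        (SS (fun i => θ i - θ 0) (fun i => (β i).re) (fun i => (β i).im) e r l : ℂ)) Y := by
  have hn : ((j : ℂ) + 1) ≠ 0 := Nat.cast_add_one_ne_zero j
  refine ⟨∑ i, (r i : ℂ) * (Complex.exp (((θ (e i) - θ 0 : ℝ) : ℂ) * Complex.I * ((j : ℂ) + 1)) *
    (((β (e i)).re : ℂ) / ((j : ℂ) + 1) + ((β (e i)).im : ℂ) * Complex.I)), ?_, ?_⟩
  · have h1 : Rl (fun i => θ (e i)) (fun i => β (e i)) r j = ∑ i, Ewf (θ (e i)) (r i * β (e i)) j := by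
      rw [Rl_apply, lp.coeFn_sum, Finset.sum_apply]
      rfl
    rw [h1, Finset.mul_sum]
    refine Finset.sum_congr rfl fun i _ => ?_
    unfold Ewf
    have h2 : Complex.exp (((θ (e i) - θ 0 : ℝ) : ℂ) * Complex.I * ((j : ℂ) + 1)) * Complex.exp (θ 0 * Complex.I) ^ (j + 1) =
        Complex.exp (θ (e i) * Complex.I) ^ (j + 1) := by
      rw [← Complex.exp_nat_mul, ← Complex.exp_nat_mul, ← Complex.exp_add]
      congr 1
      push_cast
      ring
    rw [div_pow, div_pow, ← h2, Complex.re_ofReal_mul, Complex.im_ofReal_mul]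
    push_cast
    field_simp
  · have h2 : (fun l : ℕ => Complex.I ^ l * ((j : ℂ) + 1) ^ l / (l.factorial * ((j : ℂ) + 1)) *
        (SS (fun i => θ i - θ 0) (fun i => (β i).re) (fun i => (β i).im) e r l : ℂ)) =
        fun l : ℕ => ∑ i, (r i : ℂ) * (Complex.I ^ l * ((j : ℂ) + 1) ^ l / (l.factorial * ((j : ℂ) + 1)) *
          ((((β (e i)).re * (θ (e i) - θ 0) ^ l + l * (β (e i)).im * (θ (e i) - θ 0) ^ (l - 1) : ℝ) : ℂ))) := by
      funext l
      unfold SS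
      rw [Complex.ofReal_sum, Finset.mul_sum]
      refine Finset.sum_congr rfl fun i _ => ?_
      push_cast
      ring
    rw [h2]
    exact hasSum_sum fun i _ => (est_hs _ hn (θ (e i) - θ 0) _ _).mul_left _

end Pool.Agent.Work.MP_0d53be_an.Full
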