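import Pool.Agent.Work.MP_0d53be_an.Full.L.RDef

/-!
# L/Ext: extension to all of `ℂ × ℂ`

Let `W` be a real subspace of `Ex` with `‖x j‖ ≤ B ‖prj x‖` for `x ∈ W` and all `j`. There is a
real-linear `σ : ℂ × ℂ → Ex` with `prj (σ c) = c`, `σ (prj x) = x` for `x ∈ W`, and
`‖σ c j‖ ≤ 3 B ‖c‖` for `j ≥ 2` (`B ≥ 0`).

Proof. `prj` is injective on `W` (`prj x = 0` implies `x j = 0` for all `j`). Let `F = prj (W)`, a
subspace of `ℂ × ℂ`, and let `Q : ℂ × ℂ → ℂ × ℂ` be a real-linear projection onto `F` with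
`‖Q c‖ ≤ 2 ‖c‖` (maximum norm): e.g. the orthogonal projection for the euclidean norm
`‖c.1‖² + ‖c.2‖²`, which lies between `‖c‖²` and `2 ‖c‖²`, so `‖Q c‖ ≤ ‖Q c‖_2 ≤ ‖c‖_2 ≤ √2 ‖c‖`
(`WithLp 2 (ℂ × ℂ)`, `Submodule.orthogonalProjection`, `F` finite dimensional). Put
`σ c = (prj|_W)⁻¹ (Q c) + ι (c - Q c)`, where `ι d` is the sequence `(d.1/2, d.2/4, 0, 0, …)`
(`prj (ι d) = d`; `lp.single` or an explicit sequence). Then `prj (σ c) = Q c + c - Q c = c`;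
`σ (prj x) = x` for `x ∈ W` as `Q (prj x) = prj x`; for `j ≥ 2` the `j`-th coordinate of `σ c` is that of
`x ∈ W` with `prj x = Q c`, at most `B ‖Q c‖ ≤ 2 B ‖c‖`.
(`(prj|_W)⁻¹`: `LinearEquiv.ofInjective` for `prj.domRestrict W`, or
`LinearMap.exists_leftInverse_of_injective`.)
-/

set_option autoImplicit false

namespace Pool.Agent.Work.MP_0d53be_an.Full

private noncomputable def iotaf (c : ℂ × ℂ) (j : ℕ) : ℂ := if j = 0 then c.1 / 2 else if j = 1 then c.2 / 4 else 0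

private theorem iotaf_sum (c : ℂ × ℂ) : Summable (fun j => ‖iotaf c j‖) := by
  refine summable_of_finite_support ((Set.finite_le_nat 1).subset fun j hj => ?_)
  rw [Function.mem_support] at hj
  by_contra hcon
  simp only [Set.mem_setOf_eq, not_le] at hcon
  apply hj
  unfold iotaf
  rw [if_neg (by omega), if_neg (by omega), norm_zero]

private noncomputable def iota : ℂ × ℂ →ₗ[ℝ] Ex where
  toFun c := ⟨iotaf c, memEx (iotaf_sum c)⟩
  map_add' c d := by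
    apply lp.ext
    funext j
    rw [lp.coeFn_add, Pi.add_apply]
    change iotaf (c + d) j = iotaf c j + iotaf d j
    unfold iotaf
    split_ifs
    · rw [Prod.fst_add, add_div]
    · rw [Prod.snd_add, add_div]
    · rw [add_zero]
  map_smul' a c := by
    apply lp.ext
    funext j
    rw [lp.coeFn_smul, Pi.smul_apply]
    change iotaf (a • c) j = a • iotaf c j
    unfold iotaf
    split_ifs
    · rw [Prod.smul_fst, smul_div_assoc]
    · rw [Prod.smul_snd, smul_div_assoc]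
    · rw [smul_zero]

private theorem iota_apply (c : ℂ × ℂ) (j : ℕ) : iota c j = iotaf c j := rfl

private theorem exists_Q (F : Submodule ℝ (ℂ × ℂ)) :
    ∃ Q : ℂ × ℂ →ₗ[ℝ] ℂ × ℂ, (∀ c, Q c ∈ F) ∧ (∀ c ∈ F, Q c = c) ∧ ∀ c, ‖Q c‖ ≤ 2 * ‖c‖ := by
  set T := WithLp.linearEquiv 2 ℝ (ℂ × ℂ) with hT
  set F2 : Submodule ℝ (WithLp 2 (ℂ × ℂ)) := F.comap T.toLinearMap with hF2
  refine ⟨T.toLinearMap ∘ₗ F2.starProjection.toLinearMap ∘ₗ T.symm.toLinearMap, fun c => ?_, fun c hc => ?_,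
    fun c => ?_⟩
  · exact F2.starProjection_apply_mem (T.symm c)
  · have h1 : T.symm c ∈ F2 := by
      rw [hF2, Submodule.mem_comap]
      simpa using hc
    have h2 : F2.starProjection (T.symm c) = T.symm c := Submodule.starProjection_eq_self_iff.mpr h1
    change T (F2.starProjection (T.symm c)) = c
    rw [h2, LinearEquiv.apply_symm_apply]
  · change ‖T (F2.starProjection (T.symm c))‖ ≤ 2 * ‖c‖
    set y := F2.starProjection (T.symm c) with hy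
    have h1 : ‖y‖ ≤ ‖T.symm c‖ := F2.norm_starProjection_apply_le _
    have h2 : ‖y‖ ^ 2 = ‖y.fst‖ ^ 2 + ‖y.snd‖ ^ 2 := WithLp.prod_norm_sq_eq_of_L2 y
    have h3 : ‖T.symm c‖ ^ 2 = ‖c.1‖ ^ 2 + ‖c.2‖ ^ 2 := WithLp.prod_norm_sq_eq_of_L2 (T.symm c)
    have h4 : ‖T y‖ = max ‖y.fst‖ ‖y.snd‖ := rfl
    have h5 : ‖c.1‖ ≤ ‖c‖ := norm_fst_le c
    have h6 : ‖c.2‖ ≤ ‖c‖ := norm_snd_le c
    have h7 : ‖T.symm c‖ ≤ 2 * ‖c‖ := by
      refine abs_le_of_sq_le_sq' ?_ (by positivity) |>.2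
      rw [h3]
      have a1 : ‖c.1‖ ^ 2 ≤ ‖c‖ ^ 2 := pow_le_pow_left₀ (norm_nonneg _) h5 2
      have a2 : ‖c.2‖ ^ 2 ≤ ‖c‖ ^ 2 := pow_le_pow_left₀ (norm_nonneg _) h6 2
      nlinarith [sq_nonneg ‖c‖]
    have h8 : ‖y.fst‖ ≤ ‖y‖ := abs_le_of_sq_le_sq' (by rw [h2]; nlinarith [sq_nonneg ‖y.snd‖]) (norm_nonneg _) |>.2
    have h9 : ‖y.snd‖ ≤ ‖y‖ := abs_le_of_sq_le_sq' (by rw [h2]; nlinarith [sq_nonneg ‖y.fst‖]) (norm_nonneg _) |>.2
    rw [h4]
    exact (max_le h8 h9).trans (h1.trans h7)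

theorem ext_map {W : Submodule ℝ Ex} {B : ℝ} (hB : 0 ≤ B)
    (hW : ∀ x ∈ W, ∀ j, ‖x j‖ ≤ B * ‖prj x‖) :
    ∃ σ : ℂ × ℂ →ₗ[ℝ] Ex, (∀ c, prj (σ c) = c) ∧ (∀ x ∈ W, σ (prj x) = x) ∧
      ∀ c, ∀ j, 2 ≤ j → ‖σ c j‖ ≤ 3 * B * ‖c‖ := by
  set L : W →ₗ[ℝ] ℂ × ℂ := prj ∘ₗ W.subtype with hL
  have hinj : Function.Injective L := by
    rw [← LinearMap.ker_eq_bot, LinearMap.ker_eq_bot']
    intro x hx
    apply Subtype.ext
    apply lp.ext
    funext j
    have h1 := hW x x.2 j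
    have h2 : prj (x : Ex) = 0 := hx
    rw [h2, norm_zero, mul_zero] at h1
    have h3 : (x : Ex) j = 0 := norm_le_zero_iff.mp h1
    rw [h3]
    rfl
  set eqv := LinearEquiv.ofInjective L hinj with heqv
  obtain ⟨Q, hQ1, hQ2, hQ3⟩ := exists_Q (LinearMap.range L)
  set Qr : ℂ × ℂ →ₗ[ℝ] LinearMap.range L := Q.codRestrict _ hQ1 with hQr
  have hpe : ∀ y : LinearMap.range L, prj ((eqv.symm y : W) : Ex) = y := by
    intro y
    have h1 : eqv (eqv.symm y) = y := eqv.apply_symm_apply y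
    exact congrArg Subtype.val h1
  refine ⟨W.subtype ∘ₗ eqv.symm.toLinearMap ∘ₗ Qr + iota ∘ₗ (LinearMap.id - Q), fun c => ?_, fun x hx => ?_,
    fun c j hj => ?_⟩
  · change prj (((eqv.symm (Qr c) : W) : Ex) + iota (c - Q c)) = c
    rw [map_add, hpe]
    have h1 : prj (iota (c - Q c)) = c - Q c := by
      rw [prj_apply, iota_apply, iota_apply]
      unfold iotaf
      apply Prod.ext
      · simp only [if_true]
        ring
      · simp only [one_ne_zero, if_false, if_true]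
        ring
    rw [h1]
    change Q c + (c - Q c) = c
    abel
  · change ((eqv.symm (Qr (prj x)) : W) : Ex) + iota (prj x - Q (prj x)) = x
    have h1 : prj x ∈ LinearMap.range L := ⟨⟨x, hx⟩, rfl⟩
    have h2 : Qr (prj x) = eqv ⟨x, hx⟩ := by
      apply Subtype.ext
      change Q (prj x) = prj x
      exact hQ2 _ h1
    rw [h2, hQ2 _ h1, sub_self, map_zero, add_zero, LinearEquiv.symm_apply_apply]
  · change ‖((eqv.symm (Qr c) : W) : Ex) j + iota (c - Q c) j‖ ≤ 3 * B * ‖c‖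
    have h1 : iota (c - Q c) j = 0 := by
      rw [iota_apply]
      unfold iotaf
      rw [if_neg (by omega), if_neg (by omega)]
    rw [h1, add_zero]
    have h2 := hW _ (eqv.symm (Qr c)).2 j
    rw [hpe] at h2
    have h3 : ‖((Qr c : LinearMap.range L) : ℂ × ℂ)‖ ≤ 2 * ‖c‖ := hQ3 c
    calc _ ≤ _ := h2
      _ ≤ B * (2 * ‖c‖) := mul_le_mul_of_nonneg_left h3 hB
      _ ≤ 3 * B * ‖c‖ := by nlinarith [mul_nonneg hB (norm_nonneg c)]

end Pool.Agent.Work.MP_0d53be_an.Full
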