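import Pool.Agent.Work.MP_0d53be_an.Full.L.RDef
import Pool.Agent.Work.MP_0d53be_an.Full.Q.Phi

/-!
# L/FamS: the family of operators given by an extension map

`H` Hilbert space, `‖T‖ ≤ 1/10` (so `PB T`, `‖((2:ℂ) • T)^n‖ ≤ 1`), `σ : ℂ × ℂ → Ex` real-linear with
`prj (σ c) = c`, `‖σ c j‖ ≤ D ‖c‖` for `j ≥ 2` (`D ≥ 0`). `evS T σ c = ev T (σ c)` (real-linear by `ev_add`,
`ev_smul`). Then `Fam T (8 D) (evS T σ)`:
`ev T x = ∑_j x_j (2T)^(j+1) = 2 x_0 T + 4 x_1 T² + ∑_n 2^(n+3) x_(n+2) T^(n+3)` (`ev_summable`,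
split off two terms: `Summable.sum_add_tsum_nat_add`/`hasSum_nat_add_iff`), and with `x = σ c`:
`2 x_0 = c.1`, `4 x_1 = c.2` (`prj_apply`), `τ n c = 2^(n+3) (σ c) (n+2)`,
`‖τ n c‖ ≤ 8 * 2^n * D ‖c‖`.

`evS_Phi`: `Phi (evS T σ) (exp (ev T x) z) c = exp (ev T (x + σ c)) z` (`exp_ev_add`, commutativity:
write `x + σ c = σ c + x`).
`ev_norm`: `‖ev T x‖ ≤ ‖x‖` (`‖((2:ℂ) • T)^(j+1)‖ ≤ 1`, `norm_ex`).
-/

set_option autoImplicit false

namespace Pool.Agent.Work.MP_0d53be_an.Full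

variable {H : Type*} [NormedAddCommGroup H] [InnerProductSpace ℂ H] [CompleteSpace H]

private theorem two_le {T : H →L[ℂ] H} (hT : ‖T‖ ≤ 1 / 10) (n : ℕ) :
    ‖((2 : ℂ) • T) ^ n‖ ≤ 1 := by
  have h2 : ‖(2 : ℂ) • T‖ ≤ 1 := by
    rw [norm_smul, Complex.norm_ofNat]
    linarith
  induction n with
  | zero =>
    rw [pow_zero]
    exact ContinuousLinearMap.norm_id_le
  | succ n ih =>
    rw [pow_succ]
    calc ‖((2 : ℂ) • T) ^ n * ((2 : ℂ) • T)‖ ≤ ‖((2 : ℂ) • T) ^ n‖ * ‖(2 : ℂ) • T‖ := norm_mul_le _ _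
      _ ≤ 1 * 1 := mul_le_mul ih h2 (norm_nonneg _) zero_le_one
      _ = 1 := one_mul 1

theorem pb_of_le {T : H →L[ℂ] H} (hT : ‖T‖ ≤ 1 / 10) : PB T := by
  exact ⟨1, two_le hT⟩

theorem ev_norm {T : H →L[ℂ] H} (hT : ‖T‖ ≤ 1 / 10) (x : Ex) : ‖ev T x‖ ≤ ‖x‖ := by
  unfold ev
  refine tsum_of_norm_bounded (g := fun j => ‖x j‖) ?_ (fun j => ?_)
  · rw [norm_ex]
    exact (ex_summable x).hasSum
  · rw [norm_smul]
    exact (mul_le_mul_of_nonneg_left (two_le hT (j + 1)) (norm_nonneg _)).trans_eq (mul_one _)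

private theorem ev_rsmul {T : H →L[ℂ] H} (h : PB T) (r : ℝ) (x : Ex) :
    ev T (r • x) = r • ev T x := by
  have h1 : r • x = (r : ℂ) • x := by
    ext j
    rw [lp.coeFn_smul, lp.coeFn_smul, Pi.smul_apply, Pi.smul_apply, Complex.real_smul,
      smul_eq_mul]
  rw [h1, ev_smul h, Complex.coe_smul]

theorem exists_evS {T : H →L[ℂ] H} (hT : ‖T‖ ≤ 1 / 10) {D : ℝ} (hD : 0 ≤ D)
    {σ : ℂ × ℂ →ₗ[ℝ] Ex} (h1 : ∀ c, prj (σ c) = c) (h2 : ∀ c, ∀ j, 2 ≤ j → ‖σ c j‖ ≤ D * ‖c‖) :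
    ∃ S : ℂ × ℂ →ₗ[ℝ] (H →L[ℂ] H), Fam T (8 * D) S ∧ (∀ c, S c = ev T (σ c)) ∧
      ∀ (x : Ex) (z : H) (c : ℂ × ℂ), Phi S ((NormedSpace.exp (ev T x)) z) c =
        (NormedSpace.exp (ev T (x + σ c))) z := by
  have hpb := pb_of_le hT
  have hD' := hD
  refine ⟨{ toFun := fun c => ev T (σ c)
            map_add' := fun c d => by rw [map_add, ev_add hpb]
            map_smul' := fun r c => by
              rw [map_smul, ev_rsmul hpb]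
              rfl }, ⟨fun n c => 2 ^ (n + 3) * (σ c) (n + 2), fun n c => ?_, fun c => ?_⟩,
    fun c => rfl, fun x z c => ?_⟩
  · rw [norm_mul, norm_pow, Complex.norm_ofNat]
    have h3 := mul_le_mul_of_nonneg_left (h2 c (n + 2) (by omega)) (by positivity :
      (0 : ℝ) ≤ 2 ^ (n + 3))
    calc (2 : ℝ) ^ (n + 3) * ‖(σ c) (n + 2)‖ ≤ 2 ^ (n + 3) * (D * ‖c‖) := h3
      _ = 8 * D * 2 ^ n * ‖c‖ := by rw [pow_add]; ring
  · have h3 := (hasSum_nat_add_iff' 2).2 (ev_summable hpb (σ c)).hasSum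
    have h4 := h1 c
    rw [prj_apply] at h4
    have h5 : c.1 = 2 * (σ c) 0 := (congrArg Prod.fst h4).symm
    have h6 : c.2 = 4 * (σ c) 1 := (congrArg Prod.snd h4).symm
    have h7 : ∑ i ∈ Finset.range 2, (σ c) i • ((2 : ℂ) • T) ^ (i + 1) = c.1 • T + c.2 • T ^ 2 := by
      rw [Finset.sum_range_succ, Finset.sum_range_one, smul_pow, smul_pow, smul_smul, smul_smul,
        h5, h6]
      norm_num
      rw [mul_comm ((σ c) 0) 2, mul_comm ((σ c) 1) 4]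
    rw [h7] at h3
    have h8 : (fun n : ℕ => (2 ^ (n + 3) * (σ c) (n + 2)) • T ^ (n + 3)) =
        fun n : ℕ => (σ c) (n + 2) • ((2 : ℂ) • T) ^ (n + 2 + 1) := by
      funext n
      rw [smul_pow, smul_smul, mul_comm]
    rw [h8]
    exact h3
  · have h3 : x + σ c = σ c + x := add_comm _ _
    rw [h3, exp_ev_add hpb]
    rfl

end Pool.Agent.Work.MP_0d53be_an.Full
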