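import Mathlib

/-!
# L/Lag: a polynomial of degree four with a large coefficient is large at one of five points

`t : Fin 5 → ℝ`, `|t j| ≤ 1`, `|t i - t j| ≥ μ` for `i ≠ j`, `0 < μ ≤ 1`, `|c i| ≥ M ≥ 0` for some `i`.
Then `|∑_i c i t_j^i| ≥ M μ⁴/100` for some `j`.

Proof. Let `P = ∑ c_i X^i`, `|P(t_j)| < M μ⁴/100` for all `j`. By Lagrange interpolation (degree `< 5`)
`P = ∑_j P(t_j) ∏_{l≠j} (X - t_l)/(t_j - t_l)`. For a polynomial `Q` let `N(Q)` be the sum of the
absolute values of the coefficients; `N(Q (X - t)) ≤ (1 + |t|) N(Q) ≤ 2 N(Q)`, so each product of four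
factors has `N ≤ 16`, and the denominators are at least `μ⁴` in absolute value. So
`|c_i| ≤ N(P) ≤ 5 * 16 * max |P(t_j)|/μ⁴ < M`.
(Other proofs, e.g. with divided differences or the inverse of the Vandermonde matrix, are fine.)
-/

set_option autoImplicit false

namespace Pool.Agent.Work.MP_0d53be_an.Full

open Polynomial in
private theorem lag_N (Q : ℝ[X]) (t : ℝ) (n : ℕ) :
    ∑ k ∈ Finset.range n, |(Q * (X - C t)).coeff k| ≤ (1 + |t|) * ∑ k ∈ Finset.range n, |Q.coeff k| := by
  have h1 : ∀ k, |(Q * (X - C t)).coeff k| ≤ (if k = 0 then 0 else |Q.coeff (k - 1)|) + |t| * |Q.coeff k| := by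
    intro k
    rw [mul_sub, coeff_sub, coeff_mul_C]
    cases k with
    | zero =>
      rw [mul_coeff_zero, coeff_X_zero, mul_zero, zero_sub, abs_neg, abs_mul, if_pos rfl, zero_add, mul_comm]
    | succ k =>
      rw [coeff_mul_X, if_neg (Nat.succ_ne_zero k), Nat.add_sub_cancel]
      refine (abs_sub _ _).trans ?_
      rw [abs_mul, mul_comm |t|]
  have h2 : ∀ m : ℕ, ∑ k ∈ Finset.range m, (if k = 0 then 0 else |Q.coeff (k - 1)|) ≤
      ∑ k ∈ Finset.range m, |Q.coeff k| := by
    intro m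
    cases m with
    | zero => simp
    | succ m =>
      rw [Finset.sum_range_succ']
      simp only [Nat.add_eq_zero_iff, one_ne_zero, and_false, if_false, if_true, add_zero, Nat.add_sub_cancel]
      exact Finset.sum_le_sum_of_subset_of_nonneg (Finset.range_subset_range.2 (Nat.le_succ m))
        fun _ _ _ => abs_nonneg _
  calc ∑ k ∈ Finset.range n, |(Q * (X - C t)).coeff k|
      ≤ ∑ k ∈ Finset.range n, ((if k = 0 then 0 else |Q.coeff (k - 1)|) + |t| * |Q.coeff k|) :=
        Finset.sum_le_sum fun k _ => h1 k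
    _ = ∑ k ∈ Finset.range n, (if k = 0 then 0 else |Q.coeff (k - 1)|) + |t| * ∑ k ∈ Finset.range n, |Q.coeff k| := by
        rw [Finset.sum_add_distrib, Finset.mul_sum]
    _ ≤ _ := by linarith [h2 n]

open Polynomial in
private theorem lag_prod {t : Fin 5 → ℝ} (ht : ∀ j, |t j| ≤ 1) (n : ℕ) (A : Finset (Fin 5)) :
    ∑ k ∈ Finset.range n, |(∏ l ∈ A, (X - C (t l)) : ℝ[X]).coeff k| ≤ 2 ^ A.card := by
  classical
  induction A using Finset.induction_on with
  | empty =>
    simp only [Finset.prod_empty, Finset.card_empty, pow_zero]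
    calc ∑ k ∈ Finset.range n, |(1 : ℝ[X]).coeff k| = ∑ k ∈ Finset.range n, (if k = 0 then 1 else 0 : ℝ) := by
          refine Finset.sum_congr rfl fun k _ => ?_
          rw [coeff_one]
          split_ifs <;> simp
      _ ≤ 1 := by
          rw [Finset.sum_ite_eq']
          split_ifs <;> norm_num
  | insert a A ha ih =>
    rw [Finset.prod_insert ha, mul_comm, Finset.card_insert_of_notMem ha, pow_succ]
    refine (lag_N _ _ n).trans ?_
    have h1 : (0 : ℝ) ≤ ∑ k ∈ Finset.range n, |(∏ l ∈ A, (X - C (t l)) : ℝ[X]).coeff k| :=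
      Finset.sum_nonneg fun _ _ => abs_nonneg _
    have h2 := ht a
    nlinarith

theorem lag {c t : Fin 5 → ℝ} {μ M : ℝ} (ht : ∀ j, |t j| ≤ 1) (h0 : 0 < μ) (h1 : μ ≤ 1)
    (h : ∀ i j, i ≠ j → μ ≤ |t i - t j|) (hM : 0 ≤ M) (hc : ∃ i, M ≤ |c i|) :
    ∃ j, M * μ ^ 4 / 100 ≤ |∑ i, c i * t j ^ (i : ℕ)| := by
  open Polynomial in
  classical
  by_contra hcon
  push Not at hcon
  obtain ⟨i, hi⟩ := hc
  have hinj : Set.InjOn t (Finset.univ : Finset (Fin 5)) := by
    intro a _ b _ hab
    by_contra hne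
    have h2 := h a b hne
    rw [hab, sub_self, abs_zero] at h2
    linarith
  set P : ℝ[X] := ∑ k : Fin 5, C (c k) * X ^ (k : ℕ) with hP
  have hdeg : P.degree < (Finset.univ : Finset (Fin 5)).card := by
    rw [Finset.card_univ, Fintype.card_fin]
    refine lt_of_le_of_lt (degree_sum_le _ _) ?_
    rw [Finset.sup_lt_iff (WithBot.bot_lt_coe 5)]
    intro k _
    refine lt_of_le_of_lt (degree_C_mul_X_pow_le _ _) ?_
    exact_mod_cast k.2
  have heval : ∀ j, P.eval (t j) = ∑ i, c i * t j ^ (i : ℕ) := by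
    intro j
    rw [hP, eval_finsetSum]
    refine Finset.sum_congr rfl fun k _ => ?_
    simp
  have hcoef : P.coeff i = c i := by
    rw [hP, finsetSum_coeff]
    rw [Finset.sum_eq_single i]
    · simp
    · intro k _ hk
      rw [coeff_C_mul, coeff_X_pow, if_neg (fun h2 => hk (Fin.ext h2.symm)), mul_zero]
    · intro h2
      exact absurd (Finset.mem_univ i) h2
  have hint := Lagrange.eq_interpolate hinj hdeg
  rw [Lagrange.interpolate_apply] at hint
  have hM0 : 0 < M * μ ^ 4 / 100 := lt_of_le_of_lt (abs_nonneg _) (hcon 0)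
  have hbasis : ∀ j, |(Lagrange.basis Finset.univ t j).coeff i| ≤ 16 / μ ^ 4 := by
    intro j
    have h2 : Lagrange.basis Finset.univ t j = C (∏ l ∈ Finset.univ.erase j, (t j - t l)⁻¹) *
        ∏ l ∈ Finset.univ.erase j, (X - C (t l)) := by
      unfold Lagrange.basis Lagrange.basisDivisor
      rw [Finset.prod_mul_distrib, map_prod]
    rw [h2, coeff_C_mul, abs_mul, Finset.abs_prod]
    have hcard : (Finset.univ.erase j).card = 4 := by
      rw [Finset.card_erase_of_mem (Finset.mem_univ j), Finset.card_univ, Fintype.card_fin]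
    have h3 : ∏ l ∈ Finset.univ.erase j, |(t j - t l)⁻¹| ≤ (μ⁻¹) ^ 4 := by
      calc ∏ l ∈ Finset.univ.erase j, |(t j - t l)⁻¹| ≤ ∏ _l ∈ Finset.univ.erase j, μ⁻¹ := by
            refine Finset.prod_le_prod (fun _ _ => abs_nonneg _) fun l hl => ?_
            rw [abs_inv]
            exact inv_anti₀ h0 (h j l (Finset.ne_of_mem_erase hl).symm)
        _ = (μ⁻¹) ^ 4 := by rw [Finset.prod_const, hcard]
    have h4 : |(∏ l ∈ Finset.univ.erase j, (X - C (t l)) : ℝ[X]).coeff i| ≤ 16 := by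
      have h5 := lag_prod ht 5 (Finset.univ.erase j)
      rw [hcard] at h5
      have h6 : |(∏ l ∈ Finset.univ.erase j, (X - C (t l)) : ℝ[X]).coeff (i : ℕ)| ≤
          ∑ k ∈ Finset.range 5, |(∏ l ∈ Finset.univ.erase j, (X - C (t l)) : ℝ[X]).coeff k| :=
        Finset.single_le_sum (f := fun k => |(∏ l ∈ Finset.univ.erase j, (X - C (t l)) : ℝ[X]).coeff k|)
          (fun _ _ => abs_nonneg _) (Finset.mem_range.2 i.2)
      linarith
    calc _ ≤ (μ⁻¹) ^ 4 * 16 := mul_le_mul h3 h4 (abs_nonneg _) (by positivity)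
      _ = 16 / μ ^ 4 := by rw [inv_pow]; ring
  have hfin : |c i| ≤ 5 * ((M * μ ^ 4 / 100) * (16 / μ ^ 4)) := by
    rw [← hcoef, hint, finsetSum_coeff]
    refine (Finset.abs_sum_le_sum_abs _ _).trans ?_
    calc ∑ j : Fin 5, |(C (P.eval (t j)) * Lagrange.basis Finset.univ t j).coeff i|
        ≤ ∑ _j : Fin 5, (M * μ ^ 4 / 100) * (16 / μ ^ 4) := by
          refine Finset.sum_le_sum fun j _ => ?_
          rw [coeff_C_mul, abs_mul, heval]
          exact mul_le_mul (hcon j).le (hbasis j) (abs_nonneg _) hM0.le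
      _ = _ := by simp
  have hμ4 : (μ ^ 4) ≠ 0 := by positivity
  have hval : 5 * ((M * μ ^ 4 / 100) * (16 / μ ^ 4)) = 4 / 5 * M := by
    field_simp
    ring
  rw [hval] at hfin
  have hMpos : 0 < M := by
    by_contra h2
    have h3 : M = 0 := by linarith
    rw [h3] at hM0
    simp at hM0
  linarith

end Pool.Agent.Work.MP_0d53be_an.Full
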