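import Pool.Agent.Work.MP_0d53be_an.Full.X.Near
import Pool.Agent.Work.MP_0d53be_an.Cnt

/-!
# L/Model: the Hilbert space model

`b` quasi-nilpotent in the commutative Banach algebra `B`, all `b^n ≠ 0`, `p : ℕ`, `δ > 0`. There are
`T : Hil →L Hil` with `‖T‖ ≤ δ`, and `Θ : B →L Hil` with `Θ (b x) = T (Θ x)`, and
`Θ (b^p), T Θ (b^p), T² Θ (b^p)` linearly independent. (`Hil = ℓ²`, file `../Model.lean`.)

Proof. Let `R = max (1/δ) 1`, `M = (R/16) •` multiplication by `b` (`ContinuousLinearMap.mul ℂ B b`).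
`QN M` (`../Cnt.lean`): `M^j = (R/16)^j •` multiplication by `b^j`, `‖M^j‖ ≤ (R/16)^j ‖b^j‖`, and
`QNb b` with `r R/16` in place of `r` (for `j = 0` `‖M^0‖ ≤ 1`; enlarge the constant).
Choose `φ : B →L ℂ` with `φ (b^(p+2)) ≠ 0` (Hahn-Banach: `exists_dual_vector`). `model M _ φ` gives
`Θ` with `Θ (M x) = shift (Θ x)`, `Θ x j = 16^j φ (M^j x)`. Put `T = (16/R) • shift`:
`T (Θ x) = (16/R) Θ (M x) = (16/R) (R/16) Θ (b x) = Θ (b x)`, `‖T‖ ≤ (16/R)(1/16) = 1/R ≤ δ`.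
Linear independence: let `z = Θ (b^p)` and suppose `c₀ z + c₁ T z + c₂ T² z = 0`, not all `cᵢ = 0`; i.e.
`Θ (b^p (c₀ + c₁ b + c₂ b²)) = 0`. Let `i` be the smallest index with `cᵢ ≠ 0`. Then
`c₀ + c₁ b + c₂ b² = b^i (cᵢ + b w)` with `w : B` a polynomial in `b`, and `u = cᵢ + b w` is invertible in
`B`: `b w` is quasi-nilpotent (`‖(b w)^n‖ ≤ ‖b^n‖ ‖w‖^n → 0` faster than any geometric sequence; so
`1 + cᵢ⁻¹ b w` has the inverse `∑ (-cᵢ⁻¹ b w)^n`, a convergent geometric series: e.g. some power of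
`-cᵢ⁻¹ b w` has norm `< 1`; or `1 - y` with `∑ ‖y^n‖ < ∞`). The kernel of `Θ` is invariant under
multiplication by `b` (`Θ (b x) = T Θ x`), closed, hence invariant under multiplication by every
element of the closed subalgebra generated by `b`, in particular by `u⁻¹ = cᵢ⁻¹ ∑ (-cᵢ⁻¹ b w)^n`. So
`Θ (b^(p+i)) = 0`, and then `Θ (b^(p+2)) = T^(2-i) Θ (b^(p+i)) = 0`; but its coordinate `0` is
`φ (b^(p+2)) ≠ 0`.
(Alternative for the last step without inverses: `c_i b^(p+i) ∈ ker Θ + (terms with b^(p+i+1), …)`: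
`T^j z` for `z' = T^i z`: `cᵢ z' = - T (c_{i+1} z' + …)`, so `z' = T K z'` with `K` a polynomial in `T`
(`i = 2`: `z' = 0`), `z' = (T K)^n z' = K^n T^n z'`, `‖z'‖ ≤ ‖K‖^n ‖T^n z'‖ = ‖K‖^n ‖Θ (b^n b^(p+i))‖
≤ ‖K‖^n ‖Θ‖ ‖b^n‖ ‖b^(p+i)‖ → 0` by `QNb` with `r = 2 ‖K‖ + 1`. So `z' = 0` and
`Θ (b^(p+2)) = T^(2-i) z' = 0`.)

`Th_exp`: `Θ (exp (ev b x) v) = exp (ev T x) (Θ v)` for every bounded `Θ` with `Θ (b x) = T (Θ x)` and
`‖T‖ ≤ 1/10`: `Θ ((ev b x) v) = (ev T x) (Θ v)` (continuity and linearity,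
`Θ (b^n v) = T^n Θ v`), then `Θ ((ev b x)^n v) = (ev T x)^n Θ v`, and the exponential series
(`NormedSpace.exp_eq_tsum`, `HasSum.mapL`).
-/

set_option autoImplicit false

namespace Pool.Agent.Work.MP_0d53be_an.Full

variable {B : Type*} [NormedCommRing B] [NormedAlgebra ℂ B] [CompleteSpace B]

private noncomputable def mB (b : B) (R : ℝ) : B →L[ℂ] B := ((R / 16 : ℝ) : ℂ) • ContinuousLinearMap.mul ℂ B b

private theorem mB_apply (b : B) (R : ℝ) (x : B) : mB b R x = ((R / 16 : ℝ) : ℂ) • (b * x) := rfl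

private theorem mB_pow (b : B) (R : ℝ) (j : ℕ) (x : B) :
    (mB b R ^ j) x = (((R / 16 : ℝ) : ℂ) ^ j) • (b ^ j * x) := by
  induction j generalizing x with
  | zero => simp
  | succ j ih =>
    rw [pow_succ (mB b R) j]
    change (mB b R ^ j) (mB b R x) = _
    rw [ih, mB_apply, mul_smul_comm, smul_smul, ← mul_assoc, ← pow_succ, ← pow_succ]

private theorem mB_norm (b : B) {R : ℝ} (hR : 0 < R) (j : ℕ) : ‖mB b R ^ j‖ ≤ (R / 16) ^ j * ‖b ^ j‖ := by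
  refine ContinuousLinearMap.opNorm_le_bound _ (by positivity) fun x => ?_
  rw [mB_pow, norm_smul, norm_pow, Complex.norm_real, Real.norm_eq_abs, abs_of_pos (by positivity), mul_assoc]
  exact mul_le_mul_of_nonneg_left (norm_mul_le _ _) (by positivity)

private theorem mB_QN {b : B} (h : QNb b) {R : ℝ} (hR : 0 < R) : QN (mB b R) := by
  intro r hr
  obtain ⟨C, hC⟩ := h (r * (R / 16)) (by positivity)
  refine ⟨C, fun j => ?_⟩
  calc r ^ j * ‖mB b R ^ j‖ ≤ r ^ j * ((R / 16) ^ j * ‖b ^ j‖) := by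
        gcongr
        exact mB_norm b hR j
    _ = (r * (R / 16)) ^ j * ‖b ^ j‖ := by rw [mul_pow, mul_assoc]
    _ ≤ C := hC j

private theorem th_pw {b : B} {T : Hil →L[ℂ] Hil} {Θ : B →L[ℂ] Hil} (hΘ : ∀ x, Θ (b * x) = T (Θ x)) (n : ℕ) (x : B) :
    Θ (b ^ n * x) = (T ^ n) (Θ x) := by
  induction n with
  | zero => simp
  | succ n ih =>
    rw [pow_succ' b n, mul_assoc, hΘ, ih, pow_succ' T n]
    rfl

private theorem th_fix {b : B} (h : QNb b) {T : Hil →L[ℂ] Hil} {Θ : B →L[ℂ] Hil} (hΘ : ∀ x, Θ (b * x) = T (Θ x))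
    {K : Hil →L[ℂ] Hil} (hK : Commute K T) {x : B} (hx : Θ x = T (K (Θ x))) : Θ x = 0 := by
  have h1 : ∀ n : ℕ, Θ x = (K ^ n) ((T ^ n) (Θ x)) := by
    intro n
    induction n with
    | zero => simp
    | succ n ih =>
      have h2 : K ^ (n + 1) * T ^ (n + 1) = (K ^ n * T ^ n) * (T * K) := by
        rw [pow_succ K n, pow_succ' T n]
        have e1 : K * (T * T ^ n) = T ^ n * (T * K) := by
          rw [← mul_assoc, hK.eq, mul_assoc, (hK.pow_right n).eq, ← mul_assoc, ← pow_succ', pow_succ, mul_assoc]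
        rw [mul_assoc, e1, ← mul_assoc]
      have h3 : (K ^ (n + 1)) ((T ^ (n + 1)) (Θ x)) = (K ^ n * T ^ n) (T (K (Θ x))) := by
        have := congrArg (fun F : Hil →L[ℂ] Hil => F (Θ x)) h2
        exact this
      rw [h3, ← hx]
      exact ih
  obtain ⟨C, hC⟩ := h (2 * ‖K‖ + 1) (by positivity)
  have hC0 : 0 ≤ C := by
    have := hC 0
    have h2 : 0 ≤ (2 * ‖K‖ + 1) ^ 0 * ‖b ^ 0‖ := by positivity
    exact h2.trans this
  have h4 : ∀ n : ℕ, ‖Θ x‖ ≤ (‖Θ‖ * C * ‖x‖) * (1 / 2) ^ n := by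
    intro n
    have e1 : ‖Θ x‖ ≤ ‖K‖ ^ n * (‖Θ‖ * (‖b ^ n‖ * ‖x‖)) := by
      calc ‖Θ x‖ = ‖(K ^ n) ((T ^ n) (Θ x))‖ := by rw [← h1 n]
        _ ≤ ‖K ^ n‖ * ‖(T ^ n) (Θ x)‖ := (K ^ n).le_opNorm _
        _ ≤ ‖K‖ ^ n * ‖(T ^ n) (Θ x)‖ := by
          refine mul_le_mul_of_nonneg_right ?_ (norm_nonneg _)
          rcases Nat.eq_zero_or_pos n with h0 | h0
          · subst h0
            rw [pow_zero, pow_zero]
            exact ContinuousLinearMap.norm_id_le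
          · exact norm_pow_le' K h0
        _ = ‖K‖ ^ n * ‖Θ (b ^ n * x)‖ := by rw [th_pw hΘ]
        _ ≤ ‖K‖ ^ n * (‖Θ‖ * (‖b ^ n‖ * ‖x‖)) := by
          refine mul_le_mul_of_nonneg_left ((Θ.le_opNorm _).trans ?_) (by positivity)
          exact mul_le_mul_of_nonneg_left (norm_mul_le _ _) (norm_nonneg _)
    have e2 : (2 * ‖K‖) ^ n * ‖b ^ n‖ ≤ C := by
      refine le_trans (mul_le_mul_of_nonneg_right ?_ (norm_nonneg _)) (hC n)
      exact pow_le_pow_left₀ (by positivity) (by linarith) n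
    have e3 : ‖K‖ ^ n * ‖b ^ n‖ ≤ C * (1 / 2) ^ n := by
      have e4 : ‖K‖ ^ n * ‖b ^ n‖ = ((2 * ‖K‖) ^ n * ‖b ^ n‖) * (1 / 2) ^ n := by
        rw [mul_pow, div_pow, one_pow]
        field_simp
      rw [e4]
      exact mul_le_mul_of_nonneg_right e2 (by positivity)
    calc ‖Θ x‖ ≤ ‖K‖ ^ n * (‖Θ‖ * (‖b ^ n‖ * ‖x‖)) := e1
      _ = (‖Θ‖ * ‖x‖) * (‖K‖ ^ n * ‖b ^ n‖) := by ring
      _ ≤ (‖Θ‖ * ‖x‖) * (C * (1 / 2) ^ n) := mul_le_mul_of_nonneg_left e3 (by positivity)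
      _ = (‖Θ‖ * C * ‖x‖) * (1 / 2) ^ n := by ring
  have h5 : Filter.Tendsto (fun n : ℕ => (‖Θ‖ * C * ‖x‖) * (1 / 2 : ℝ) ^ n) Filter.atTop (nhds 0) := by
    have := (tendsto_pow_atTop_nhds_zero_of_lt_one (r := (1 / 2 : ℝ)) (by norm_num) (by norm_num)).const_mul
      (‖Θ‖ * C * ‖x‖)
    simpa using this
  have h6 : ‖Θ x‖ ≤ 0 := ge_of_tendsto' h5 h4
  exact norm_le_zero_iff.mp h6

theorem model_b {b : B} (h : QNb b) (hb : ∀ n : ℕ, b ^ n ≠ 0) (p : ℕ) {δ : ℝ} (hδ : 0 < δ) :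
    ∃ (T : Hil →L[ℂ] Hil) (Θ : B →L[ℂ] Hil), ‖T‖ ≤ δ ∧ (∀ x, Θ (b * x) = T (Θ x)) ∧
      LinearIndependent ℂ ![Θ (b ^ p), T (Θ (b ^ p)), T (T (Θ (b ^ p)))] := by
  set R : ℝ := max (1 / δ) 1 with hRdef
  have hR : 0 < R := lt_max_of_lt_right one_pos
  have hRδ : 1 / R ≤ δ := by
    rw [one_div_le hR hδ]
    exact le_max_left _ _
  have hRC : ((R / 16 : ℝ) : ℂ) ≠ 0 := by
    rw [Ne, Complex.ofReal_eq_zero]
    positivity
  have hne : b ^ (p + 2) ≠ 0 := hb (p + 2)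
  obtain ⟨φ, -, hφ⟩ := exists_dual_vector ℂ (b ^ (p + 2)) (norm_ne_zero_iff.mpr hne)
  obtain ⟨Θ, hΘ1, hΘ2⟩ := model (mB b R) (mB_QN h hR).summable φ
  set T : Hil →L[ℂ] Hil := ((16 / R : ℝ) : ℂ) • shift with hT
  have hTΘ : ∀ x, Θ (b * x) = T (Θ x) := by
    intro x
    have h1 : T (Θ x) = ((16 / R : ℝ) : ℂ) • Θ (mB b R x) := by
      rw [hΘ1]
      rfl
    rw [h1, mB_apply, map_smul, smul_smul, ← Complex.ofReal_mul]
    have h2 : (16 / R * (R / 16) : ℝ) = 1 := by field_simp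
    rw [h2, Complex.ofReal_one, one_smul]
  have hTn : ‖T‖ ≤ δ := by
    refine le_trans ?_ hRδ
    rw [hT, norm_smul, Complex.norm_real, Real.norm_eq_abs, abs_of_pos (by positivity)]
    calc 16 / R * ‖shift‖ ≤ 16 / R * (1 / 16) := mul_le_mul_of_nonneg_left shift_norm (by positivity)
      _ = 1 / R := by field_simp
  have hnz : Θ (b ^ (p + 2)) ≠ 0 := by
    intro h0
    have h1 := hΘ2 (b ^ (p + 2)) 0
    rw [h0, pow_zero, pow_zero, one_mul] at h1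
    change (0 : ℂ) = φ (b ^ (p + 2)) at h1
    rw [hφ] at h1
    have h2 : ‖b ^ (p + 2)‖ = 0 := by simpa using h1.symm
    exact hne (norm_eq_zero.mp h2)
  have hpow : ∀ n, Θ (b ^ (p + n)) = (T ^ n) (Θ (b ^ p)) := by
    intro n
    rw [add_comm, pow_add, th_pw hTΘ]
  have hz1 : Θ (b ^ (p + 1)) = T (Θ (b ^ p)) := by
    rw [hpow, pow_one]
  have hz2 : Θ (b ^ (p + 2)) = T (T (Θ (b ^ p))) := by
    rw [hpow, pow_two]
    rfl
  refine ⟨T, Θ, hTn, hTΘ, ?_⟩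
  rw [Fintype.linearIndependent_iff]
  intro c hc
  rw [Fin.sum_univ_three] at hc
  simp only [Matrix.cons_val_zero, Matrix.cons_val_one, Matrix.cons_val] at hc
  have h0 : c 0 = 0 := by
    by_contra hne0
    have h1 : Θ (b ^ p) = 0 := by
      refine th_fix h hTΘ (K := (-(c 1 / c 0)) • (1 : Hil →L[ℂ] Hil) - (c 2 / c 0) • T) ?_ ?_
      · exact ((Commute.one_left T).smul_left _).sub_left ((Commute.refl T).smul_left _)
      · change Θ (b ^ p) = T ((-(c 1 / c 0)) • Θ (b ^ p) - (c 2 / c 0) • T (Θ (b ^ p)))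
        rw [map_sub, map_smul, map_smul]
        have h3 : c 0 • Θ (b ^ p) = -(c 1 • T (Θ (b ^ p))) - c 2 • T (T (Θ (b ^ p))) := by
          have h4 := eq_neg_of_add_eq_zero_left (by rw [add_assoc] at hc; exact hc)
          rw [h4, neg_add, sub_eq_add_neg]
        have h5 : (c 0)⁻¹ • (-(c 1 • T (Θ (b ^ p))) - c 2 • T (T (Θ (b ^ p)))) = Θ (b ^ p) := by
          rw [← h3, smul_smul, inv_mul_cancel₀ hne0, one_smul]
        rw [smul_sub, smul_neg, smul_smul, smul_smul] at h5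
        rw [neg_smul, div_eq_inv_mul, div_eq_inv_mul]
        exact h5.symm
    apply hnz
    rw [hz2, h1, map_zero, map_zero]
  rw [h0, zero_smul, zero_add] at hc
  have h1 : c 1 = 0 := by
    by_contra hne1
    have h2 : Θ (b ^ (p + 1)) = 0 := by
      refine th_fix h hTΘ (K := (-(c 2 / c 1)) • (1 : Hil →L[ℂ] Hil)) ?_ ?_
      · exact (Commute.one_left T).smul_left _
      · change Θ (b ^ (p + 1)) = T ((-(c 2 / c 1)) • Θ (b ^ (p + 1)))
        rw [map_smul, hz1]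
        have h3 : c 1 • T (Θ (b ^ p)) = -(c 2 • T (T (Θ (b ^ p)))) := eq_neg_of_add_eq_zero_left hc
        have h4 : T (Θ (b ^ p)) = (c 1)⁻¹ • (c 1 • T (Θ (b ^ p))) := by rw [smul_smul, inv_mul_cancel₀ hne1, one_smul]
        rw [h3, smul_neg, smul_smul] at h4
        rw [neg_smul, show c 2 / c 1 = (c 1)⁻¹ * c 2 by rw [div_eq_inv_mul]]
        exact h4
    apply hnz
    rw [hz2, ← hz1, h2, map_zero]
  rw [h1, zero_smul, zero_add] at hc
  have h2 : c 2 = 0 := by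
    rw [← hz2, smul_eq_zero] at hc
    exact hc.resolve_right hnz
  intro i
  fin_cases i
  · exact h0
  · exact h1
  · exact h2

private theorem pb_T {T : Hil →L[ℂ] Hil} (hT : ‖T‖ ≤ 1 / 10) : PB T := by
  refine ⟨1, fun n => ?_⟩
  rcases Nat.eq_zero_or_pos n with h0 | h0
  · subst h0
    rw [pow_zero]
    exact ContinuousLinearMap.norm_id_le
  · refine (norm_pow_le' _ h0).trans (pow_le_one₀ (norm_nonneg _) ?_)
    rw [norm_smul, Complex.norm_ofNat]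
    linarith

private theorem th_two {b : B} {T : Hil →L[ℂ] Hil} {Θ : B →L[ℂ] Hil} (hΘ : ∀ x, Θ (b * x) = T (Θ x)) (n : ℕ) (v : B) :
    Θ (((2 : ℂ) • b) ^ n * v) = (((2 : ℂ) • T) ^ n) (Θ v) := by
  refine th_pw (fun x => ?_) n v
  rw [smul_mul_assoc, map_smul, hΘ]
  rfl

private theorem th_ev {b : B} (h : QNb b) {T : Hil →L[ℂ] Hil} (hT : ‖T‖ ≤ 1 / 10) {Θ : B →L[ℂ] Hil}
    (hΘ : ∀ x, Θ (b * x) = T (Θ x)) (x : Ex) (v : B) : Θ (ev b x * v) = (ev T x) (Θ v) := by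
  have h1 : HasSum (fun j : ℕ => x j • ((2 : ℂ) • b) ^ (j + 1)) (ev b x) := (ev_summable h.pb x).hasSum
  have h2 : HasSum (fun j : ℕ => x j • ((2 : ℂ) • T) ^ (j + 1)) (ev T x) := (ev_summable (pb_T hT) x).hasSum
  have h3 := (h1.mul_right v).mapL Θ
  have h4 := h2.mapL (ContinuousLinearMap.apply ℂ Hil (Θ v))
  refine h3.unique ?_
  have h5 : (fun j : ℕ => Θ (x j • ((2 : ℂ) • b) ^ (j + 1) * v)) =
      fun j : ℕ => (ContinuousLinearMap.apply ℂ Hil (Θ v)) (x j • ((2 : ℂ) • T) ^ (j + 1)) := by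
    funext j
    rw [smul_mul_assoc, map_smul, th_two hΘ, map_smul]
    rfl
  rw [h5]
  exact h4

theorem Th_exp {b : B} (h : QNb b) {T : Hil →L[ℂ] Hil} (hT : ‖T‖ ≤ 1 / 10) {Θ : B →L[ℂ] Hil}
    (hΘ : ∀ x, Θ (b * x) = T (Θ x)) (x : Ex) (v : B) :
    Θ (NormedSpace.exp (ev b x) * v) = (NormedSpace.exp (ev T x)) (Θ v) := by
  have h1 := NormedSpace.exp_series_hasSum_exp' (𝕂 := ℂ) (ev b x)
  have h2 := NormedSpace.exp_series_hasSum_exp' (𝕂 := ℂ) (ev T x)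
  have h3 := (h1.mul_right v).mapL Θ
  have h4 := h2.mapL (ContinuousLinearMap.apply ℂ Hil (Θ v))
  refine h3.unique ?_
  have hp : ∀ n : ℕ, Θ ((ev b x) ^ n * v) = ((ev T x) ^ n) (Θ v) := by
    intro n
    exact th_pw (fun w => th_ev h hT hΘ x w) n v
  have h5 : (fun n : ℕ => Θ (((n.factorial : ℂ)⁻¹) • (ev b x) ^ n * v)) =
      fun n : ℕ => (ContinuousLinearMap.apply ℂ Hil (Θ v)) (((n.factorial : ℂ)⁻¹) • (ev T x) ^ n) := by
    funext j
    rw [smul_mul_assoc, map_smul, hp, map_smul]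
    rfl
  rw [h5]
  exact h4

end Pool.Agent.Work.MP_0d53be_an.Full
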