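import Mathlib

/-!
# L/Pigeon: a large subset with almost constant error

`P` finite set, `f : ι → Fin 6 → ℝ`, `|f a i| ≤ g` for `a ∈ P`, `0 < s ≤ g`. There is `P' ⊆ P` with
`card P ≤ (4 g/s)^6 card P'` and `|f a i - f a' i| ≤ s` for `a, a' ∈ P'` and all `i`.

Proof. For `a ∈ P` let `κ(a) : Fin 6 → ℤ`, `κ(a)_i = ⌊f a i/s⌋ ∈ [⌊-g/s⌋, ⌊g/s⌋]`, an interval with at most
`2g/s + 2 ≤ 4g/s` integers. So `κ` takes at most `(4g/s)^6` values on `P`. Pigeonhole (`P` is the union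
of the fibres, `Finset.card_eq_sum_card_fiberwise`): some fibre `P'` has `card P ≤ (4g/s)^6 card P'`,
and in a fibre `|f a i - f a' i| < s`. (`P = ∅`: take `P' = ∅`.)
-/

set_option autoImplicit false

namespace Pool.Agent.Work.MP_0d53be_an.Full

theorem pigeon6 {ι : Type*} (P : Finset ι) (f : ι → Fin 6 → ℝ) {g s : ℝ} (hs : 0 < s)
    (hg : s ≤ g) (h : ∀ a ∈ P, ∀ i, |f a i| ≤ g) :
    ∃ P' ⊆ P, (P.card : ℝ) ≤ (4 * g / s) ^ 6 * P'.card ∧
      ∀ a ∈ P', ∀ a' ∈ P', ∀ i, |f a i - f a' i| ≤ s := by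
  classical
  rcases P.eq_empty_or_nonempty with hP | ⟨a₀, ha₀⟩
  · refine ⟨∅, Finset.empty_subset _, ?_, fun a ha => absurd ha (Finset.notMem_empty a)⟩
    rw [hP]
    simp
  let κ : ι → Fin 6 → ℤ := fun a i => ⌊f a i / s⌋
  let I : Finset ℤ := Finset.Icc ⌊-(g / s)⌋ ⌊g / s⌋
  let T : Finset (Fin 6 → ℤ) := Fintype.piFinset fun _ : Fin 6 => I
  have hmap : ∀ a ∈ P, κ a ∈ T := by
    intro a ha
    rw [Fintype.mem_piFinset]
    intro i
    have h1 := abs_le.1 (h a ha i)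
    refine Finset.mem_Icc.2 ⟨Int.floor_le_floor ?_, Int.floor_le_floor ?_⟩
    · rw [← neg_div]
      exact div_le_div_of_nonneg_right h1.1 hs.le
    · exact div_le_div_of_nonneg_right h1.2 hs.le
  obtain ⟨y, hy, hmax⟩ := Finset.exists_max_image T (fun y => (P.filter fun a => κ a = y).card) ⟨_, hmap a₀ ha₀⟩
  have hgs : 1 ≤ g / s := by
    rw [le_div_iff₀ hs, one_mul]
    exact hg
  have hI : (I.card : ℝ) ≤ 4 * g / s := by
    have h1 : (I.card : ℤ) = ⌊g / s⌋ + 1 - ⌊-(g / s)⌋ := by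
      rw [Int.card_Icc]
      refine Int.toNat_of_nonneg ?_
      have h2 : ⌊-(g / s)⌋ ≤ ⌊g / s⌋ := Int.floor_le_floor (by linarith)
      omega
    have h2 : (I.card : ℝ) = ⌊g / s⌋ + 1 - ⌊-(g / s)⌋ := by exact_mod_cast h1
    have h3 := Int.floor_le (g / s)
    have h4 := Int.lt_floor_add_one (-(g / s))
    have h5 : 4 * g / s = 4 * (g / s) := by ring
    rw [h2, h5]
    linarith
  have hTc : T.card = I.card ^ 6 := by
    rw [Fintype.card_piFinset]
    simp
  have hc : P.card ≤ T.card * (P.filter fun a => κ a = y).card := by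
    rw [Finset.card_eq_sum_card_fiberwise hmap]
    calc ∑ b ∈ T, (P.filter fun a => κ a = b).card ≤ ∑ _b ∈ T, (P.filter fun a => κ a = y).card :=
          Finset.sum_le_sum fun b hb => hmax b hb
      _ = _ := by rw [Finset.sum_const, smul_eq_mul]
  refine ⟨P.filter fun a => κ a = y, Finset.filter_subset _ _, ?_, ?_⟩
  · have h1 : (P.card : ℝ) ≤ (I.card : ℝ) ^ 6 * (P.filter fun a => κ a = y).card := by
      rw [hTc] at hc
      exact_mod_cast hc
    refine h1.trans (mul_le_mul_of_nonneg_right ?_ (Nat.cast_nonneg _))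
    exact pow_le_pow_left₀ (Nat.cast_nonneg _) hI 6
  · intro a ha a' ha' i
    rw [Finset.mem_filter] at ha ha'
    have h1 : ⌊f a i / s⌋ = ⌊f a' i / s⌋ := by
      have h2 : κ a = κ a' := by rw [ha.2, ha'.2]
      exact congrFun h2 i
    have h2 := Int.abs_sub_lt_one_of_floor_eq_floor h1
    rw [← sub_div, abs_div, abs_of_pos hs, div_lt_one hs] at h2
    exact h2.le

end Pool.Agent.Work.MP_0d53be_an.Full
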