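import Pool.Agent.Work.MP_0d53be_an.Full.L.Est
import Pool.Agent.Work.MP_0d53be_an.Full.L.Ext
import Pool.Agent.Work.MP_0d53be_an.Full.L.FamS
import Pool.Agent.Work.MP_0d53be_an.Full.L.Pigeon
import Pool.Agent.Work.MP_0d53be_an.Full.L.Model
import Pool.Agent.Work.MP_0d53be_an.Full.Q.Count4

/-!
# L/Lines7: seven fans do not all contain long lines

For every `p` there is `ε̄ > 0` such that for every `K₁ ≥ 1` there is `k₀` such that for `k ≥ k₀` there are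
no angles `θ i`, `i < 7`, within `k^(-139)` of `θ 0` and pairwise at distance at least `k^(-147)`, finite
sets `S i` of lattice points, `q i`, `β i` (`‖β i‖ = 1`), `g ≥ 2^√k`, `L ≥ g^11` such that each `S i` is
`LineDense` at `q i` in the direction `β i` with mesh `g` and length `L`, and all sums of three points
of different `S i` are near returns.

Proof. `est` gives `c > 0`, `B` (replace `B` by `max B 0`). Let `D = 3B`; `count_four (8 D)` gives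
`δ ≤ 1/10`; `model_b` with `p`, `δ` gives `T, Θ`; `z₀ = Θ (b^p) ≠ 0`. `count_four` gives `ε > 0`, `C`
(assume `C ≥ 0`, replace by `max C 0`).
Let `ε̄ = ε/(2 (‖Θ‖ + 1))`, and `κ > 0`, `κ ≤ 1` with `(e^κ - 1)(‖z₀‖ + ε) ≤ ε/2`, `t = κ/6`.
Let `K₁ ≥ 1`, `k` large, and suppose we have all the data. `s = √(k^(-139))`, `μ = k^(-8)`:
`s² μ = k^(-147)`, `s ≤ c μ⁸` for large `k` (`k^(-69.5) ≤ c k^(-64)`). `est` gives `e : Fin 3 → Fin 7`.
Write `R = Rl (θ ∘ e) (β ∘ e)`. `W = LinearMap.range R`; `ext_map` gives `σ`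
(`‖σ c j‖ ≤ D ‖c‖`, `j ≥ 2`) and `exists_evS` gives `S' : Fam T (8 D) S'`.
Points: `n = ⌊L/g⌋`; for `a : Fin 3 → Fin (n+1)` let `r(a)_i = g a_i ∈ [0, L]`; `LineDense` gives
`z_i(a) ∈ S_{e i}` with `‖toC z_i(a) - (q_{e i} + g a_i β_{e i})‖ ≤ g`. Let
`f_i(a) = (toC z_i(a) - (q_{e i} + g a_i β_{e i}))/K₁ ∈ ℂ`, `‖f_i(a)‖ ≤ g/K₁ ≤ g`, and
`x(a) = ∑_i Ew θ_{e i} (toC z_i(a)/K₁) = x₀ + R (r(a)/K₁) + E(f(a))`,
`x₀ = ∑_i Ew θ_{e i} (q_{e i}/K₁)`, `E(f) = ∑_i Ew θ_{e i} f_i` (`Ew_add`), `‖E(f)‖ ≤ ∑ ‖f_i‖`.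
By hypothesis (`e` injective) `NR b p ε̄ (x(a))`: with `l`,
`‖exp(ev T x(a)) z₀ - l z₀‖ = ‖Θ (exp(ev b x(a)) b^p - l b^p)‖ ≤ ‖Θ‖ ε̄ ≤ ε/2` (`Th_exp`).
`pigeon6` for the real and imaginary parts of `f_i(a)` with `g` and `t` (`t ≤ 1 ≤ g`) gives a set
`P'` of `a`'s with `(n+1)³ ≤ (4g/t)⁶ card P'`, and for `a, a' ∈ P'`: `‖f_i(a) - f_i(a')‖ ≤ 2t`, so
`‖E(f(a)) - E(f(a'))‖ ≤ 6 t = κ`. `P'` is nonempty; fix `a₀ ∈ P'`, `x₁ = x₀ + E(f(a₀))`,
`y = exp(ev T x₁) z₀ ≠ 0` (the exponential is invertible). For `a ∈ P'` let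
`c(a) = prj (R (r(a)/K₁))`, `σ (c(a)) = R (r(a)/K₁)`, so `Phi S' y (c(a)) = exp(ev T (x₁ + σ c(a))) z₀`
and `‖(x₁ + σ c(a)) - x(a)‖ ≤ κ`, hence (`exp_ev_add`, `exp_close`, `ev_norm`)
`‖Phi S' y (c(a)) - l z₀‖ ≤ (e^κ - 1)(‖z₀‖ + ε/2) + ε/2 ≤ ε` (`‖exp(ev T x(a)) z₀‖ ≤ ‖z₀‖ + ε/2`).
Separation: for `a ≠ a'` some `|r(a)_i - r(a')_i| ≥ g`, so
`‖c(a) - c(a')‖ = ‖prj R ((r(a) - r(a'))/K₁)‖ ≥ c s⁶ μ⁸ g/K₁ = c k^(-417) k^(-64) g/K₁ ≥ 1` for large `k`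
(`g ≥ 2^(Nat.sqrt k)`). In particular `c` is injective on `P'`. Size:
`‖c(a)‖ ≤ 4 ‖R (r(a)/K₁)‖ ≤ 12 L/K₁ ≤ 12 L` (`prj_le`, `Rl_le`). `count_four` for the image
`F = c(P')` and `12 L ≥ 1`: `card P' ≤ C (12 L)²`. So
`(L/g)³ ≤ (n+1)³ ≤ (4g/t)⁶ * 144 C L²`, i.e. `L ≤ 144 C 4⁶ t^(-6) g⁹`, which contradicts
`L ≥ g^11` for large `k` (`g² ≥ 4^(Nat.sqrt k) > 144 C 4⁶ t^(-6)`).
-/

set_option autoImplicit false

namespace Pool.Agent.Work.MP_0d53be_an.Full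

variable {B : Type*} [NormedCommRing B] [NormedAlgebra ℂ B] [CompleteSpace B]

private theorem core7 {T : Hil →L[ℂ] Hil} (hT : ‖T‖ ≤ 1 / 10) {B₀ : ℝ} (hB₀ : 0 ≤ B₀) {z₀ : Hil}
    (hz₀ : z₀ ≠ 0) {ε C : ℝ} (hε : 0 < ε)
    (hcount : ∀ S : ℂ × ℂ →ₗ[ℝ] (Hil →L[ℂ] Hil), Fam T (8 * (3 * B₀)) S → ∀ y : Hil, y ≠ 0 →
        ∀ L : ℝ, 1 ≤ L → ∀ F : Finset (ℂ × ℂ), (∀ c ∈ F, ‖c‖ ≤ L) →
        (∀ c ∈ F, ∀ c' ∈ F, c ≠ c' → 1 ≤ ‖c - c'‖) →
        (∀ c ∈ F, ∃ l : ℂ, ‖l‖ = 1 ∧ ‖Phi S y c - l • z₀‖ ≤ ε) → (F.card : ℝ) ≤ C * L ^ 2)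
    {R : (Fin 3 → ℝ) →ₗ[ℝ] Ex} (hW : ∀ r j, ‖R r j‖ ≤ B₀ * ‖prj (R r)‖) {lam : ℝ} (hlam : 0 ≤ lam)
    (hlow : ∀ r i, lam * |r i| ≤ ‖prj (R r)‖) (hup : ∀ r, ‖R r‖ ≤ ∑ i, |r i|)
    (E : (Fin 3 → ℂ) → Ex) (hE : ∀ f f', ‖E f - E f'‖ ≤ ∑ i, ‖f i - f' i‖)
    {t g K : ℝ} (ht : 0 < t) (htg : t ≤ g) (hκ : (Real.exp (6 * t) - 1) * (‖z₀‖ + ε) ≤ ε / 2)
    (hK : 1 ≤ K) (hsep : 1 ≤ lam * (g / K)) (n : ℕ) (x₀ : Ex)
    (f : (Fin 3 → Fin (n + 1)) → Fin 3 → ℂ) (hf : ∀ a i, ‖f a i‖ ≤ g)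
    (hnear : ∀ a : Fin 3 → Fin (n + 1), ∃ l : ℂ, ‖l‖ = 1 ∧
      ‖(NormedSpace.exp (ev T (x₀ + R (fun i => g * ((a i : ℕ) : ℝ) / K) + E (f a)))) z₀ - l • z₀‖ ≤ ε / 2)
    {L : ℝ} (hL : 1 ≤ L) (hnL : g * n ≤ L) :
    ((n : ℝ) + 1) ^ 3 ≤ (4 * g / t) ^ 6 * (C * (12 * L) ^ 2) := by
  classical
  have hg : 0 < g := ht.trans_le htg
  have hK0 : 0 < K := by linarith
  obtain ⟨P', _, hcard, hP'⟩ := pigeon6 (Finset.univ : Finset (Fin 3 → Fin (n + 1)))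
    (fun a => ![(f a 0).re, (f a 0).im, (f a 1).re, (f a 1).im, (f a 2).re, (f a 2).im]) ht htg (by
      intro a _ i
      fin_cases i
      · exact (Complex.abs_re_le_norm _).trans (hf a 0)
      · exact (Complex.abs_im_le_norm _).trans (hf a 0)
      · exact (Complex.abs_re_le_norm _).trans (hf a 1)
      · exact (Complex.abs_im_le_norm _).trans (hf a 1)
      · exact (Complex.abs_re_le_norm _).trans (hf a 2)
      · exact (Complex.abs_im_le_norm _).trans (hf a 2))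
  have hcu : ((Finset.univ : Finset (Fin 3 → Fin (n + 1))).card : ℝ) = ((n : ℝ) + 1) ^ 3 := by
    rw [Finset.card_univ, Fintype.card_fun, Fintype.card_fin, Fintype.card_fin]
    push_cast
    ring
  rw [hcu] at hcard
  have hne : P'.Nonempty := by
    rw [Finset.nonempty_iff_ne_empty]
    intro h
    rw [h, Finset.card_empty, Nat.cast_zero, mul_zero] at hcard
    have : (0 : ℝ) < ((n : ℝ) + 1) ^ 3 := by positivity
    linarith
  obtain ⟨a₀, ha₀⟩ := hne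
  have hcx : ∀ z : ℂ, |z.re| ≤ t → |z.im| ≤ t → ‖z‖ ≤ 2 * t := by
    intro z h1 h2
    have h3 := Complex.norm_le_abs_re_add_abs_im z
    linarith
  have hfd : ∀ a ∈ P', ∀ a' ∈ P', ∀ i, ‖f a i - f a' i‖ ≤ 2 * t := by
    intro a ha a' ha' i
    have h0 := hP' a ha a' ha' 0
    have h1 := hP' a ha a' ha' 1
    have h2 := hP' a ha a' ha' 2
    have h3 := hP' a ha a' ha' 3
    have h4 := hP' a ha a' ha' 4
    have h5 := hP' a ha a' ha' 5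
    fin_cases i
    · exact hcx _ (by simpa using h0) (by simpa using h1)
    · exact hcx _ (by simpa using h2) (by simpa using h3)
    · exact hcx _ (by simpa using h4) (by simpa using h5)
  have hEd : ∀ a ∈ P', ‖E (f a₀) - E (f a)‖ ≤ 6 * t := by
    intro a ha
    refine (hE _ _).trans ?_
    rw [Fin.sum_univ_three]
    have h0 := hfd a₀ ha₀ a ha 0
    have h1 := hfd a₀ ha₀ a ha 1
    have h2 := hfd a₀ ha₀ a ha 2
    linarith
  obtain ⟨σ, hσ1, hσ2, hσ3⟩ := ext_map (W := LinearMap.range R) hB₀ (by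
    rintro x ⟨r, rfl⟩ j
    exact hW r j)
  obtain ⟨S, hS1, hS2, hS3⟩ := exists_evS hT (D := 3 * B₀) (by positivity) hσ1 hσ3
  set x₁ : Ex := x₀ + E (f a₀) with hx₁
  set y : Hil := (NormedSpace.exp (ev T x₁)) z₀ with hy
  have hPB : PB T := pb_of_le hT
  have hyne : y ≠ 0 := by
    intro h0
    have h1 : (NormedSpace.exp (ev T (-x₁))) y = z₀ := by
      have h2 := exp_ev_add hPB (-x₁) x₁
      rw [neg_add_cancel, ev_zero, NormedSpace.exp_zero] at h2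
      have h3 : ((NormedSpace.exp (ev T (-x₁))) * (NormedSpace.exp (ev T x₁))) z₀ = z₀ := by
        rw [← h2]
        rfl
      exact h3
    rw [h0, map_zero] at h1
    exact hz₀ h1.symm
  set r : (Fin 3 → Fin (n + 1)) → Fin 3 → ℝ := fun a i => g * ((a i : ℕ) : ℝ) / K with hr
  set c : (Fin 3 → Fin (n + 1)) → ℂ × ℂ := fun a => prj (R (r a)) with hcdef
  have hσc : ∀ a, σ (c a) = R (r a) := fun a => hσ2 _ ⟨r a, rfl⟩
  have hclose : ∀ a ∈ P', ∃ l : ℂ, ‖l‖ = 1 ∧ ‖Phi S y (c a) - l • z₀‖ ≤ ε := by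
    intro a ha
    obtain ⟨l, hl, hn⟩ := hnear a
    refine ⟨l, hl, ?_⟩
    rw [hy, hS3, hσc]
    set xa : Ex := x₀ + R (r a) + E (f a) with hxa
    have hxa' : x₁ + R (r a) = (E (f a₀) - E (f a)) + xa := by
      rw [hx₁, hxa]
      abel
    rw [hxa', exp_ev_add hPB]
    set u : Hil := (NormedSpace.exp (ev T xa)) z₀ with hu
    have h1 : ((NormedSpace.exp (ev T (E (f a₀) - E (f a)))) * (NormedSpace.exp (ev T xa))) z₀ =
        (NormedSpace.exp (ev T (E (f a₀) - E (f a))) - 1) u + u := by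
      change (NormedSpace.exp (ev T (E (f a₀) - E (f a)))) u = (NormedSpace.exp (ev T (E (f a₀) - E (f a)))) u - u + u
      rw [sub_add_cancel]
    rw [h1, add_sub_assoc]
    have h2 : ‖NormedSpace.exp (ev T (E (f a₀) - E (f a))) - 1‖ ≤ Real.exp (6 * t) - 1 := by
      refine (exp_close _).trans ?_
      have h3 := (ev_norm hT (E (f a₀) - E (f a))).trans (hEd a ha)
      have h4 := Real.exp_le_exp.2 h3
      linarith
    have h5 : ‖u‖ ≤ ‖z₀‖ + ε := by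
      have h6 : u = (u - l • z₀) + l • z₀ := by abel
      have h7 : ‖l • z₀‖ = ‖z₀‖ := by rw [norm_smul, hl, one_mul]
      rw [h6]
      refine (norm_add_le _ _).trans ?_
      rw [h7]
      have h8 : ‖u - l • z₀‖ ≤ ε / 2 := hn
      linarith
    have h9 : (0 : ℝ) ≤ Real.exp (6 * t) - 1 := by
      have := Real.add_one_le_exp (6 * t)
      linarith
    have h10 : ‖(NormedSpace.exp (ev T (E (f a₀) - E (f a))) - 1) u‖ ≤ ε / 2 := by
      refine (ContinuousLinearMap.le_opNorm _ _).trans ?_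
      refine le_trans ?_ hκ
      exact mul_le_mul h2 h5 (norm_nonneg _) h9
    have h11 : ‖u - l • z₀‖ ≤ ε / 2 := hn
    refine (norm_add_le _ _).trans ?_
    linarith
  have hsepc : ∀ a a', a ≠ a' → 1 ≤ ‖c a - c a'‖ := by
    intro a a' haa
    obtain ⟨i, hi⟩ := Function.ne_iff.1 haa
    have h1 : c a - c a' = prj (R (r a - r a')) := by
      rw [hcdef]
      simp only [map_sub]
    rw [h1]
    refine le_trans ?_ (hlow (r a - r a') i)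
    refine hsep.trans (mul_le_mul_of_nonneg_left ?_ hlam)
    have h2 : (r a - r a') i = g / K * ((((a i : ℕ) : ℤ) - ((a' i : ℕ) : ℤ) : ℤ) : ℝ) := by
      rw [Pi.sub_apply, hr]
      push_cast
      ring
    rw [h2, abs_mul, abs_of_pos (div_pos hg hK0)]
    have h3 : (((a i : ℕ) : ℤ) - ((a' i : ℕ) : ℤ)) ≠ 0 := by
      intro h4
      apply hi
      apply Fin.ext
      omega
    have h4 : (1 : ℝ) ≤ |((((a i : ℕ) : ℤ) - ((a' i : ℕ) : ℤ) : ℤ) : ℝ)| := by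
      rw [← Int.cast_abs]
      exact_mod_cast Int.one_le_abs h3
    have h5 : 0 < g / K := div_pos hg hK0
    nlinarith
  have hinj : Set.InjOn c (P' : Set (Fin 3 → Fin (n + 1))) := by
    intro a _ a' _ h
    by_contra hne
    have h1 := hsepc a a' hne
    rw [h, sub_self, norm_zero] at h1
    linarith
  have hsize : ∀ a, ‖c a‖ ≤ 12 * L := by
    intro a
    refine (prj_le _).trans ?_
    have h1 := hup (r a)
    rw [Fin.sum_univ_three] at h1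
    have h2 : ∀ i, |r a i| ≤ L := by
      intro i
      have h3 : (0 : ℝ) ≤ ((a i : ℕ) : ℝ) := Nat.cast_nonneg _
      have h4 : ((a i : ℕ) : ℝ) ≤ n := by
        have := (a i).2
        exact_mod_cast Nat.lt_succ_iff.1 this
      rw [hr]
      simp only []
      rw [abs_of_nonneg (by positivity)]
      calc g * ((a i : ℕ) : ℝ) / K ≤ g * ((a i : ℕ) : ℝ) := div_le_self (by positivity) hK
        _ ≤ g * n := by gcongr
        _ ≤ L := hnL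
    have h0 := h2 0
    have h3 := h2 1
    have h4 := h2 2
    linarith
  have hfin := hcount S hS1 y hyne (12 * L) (by linarith) (P'.image c) ?_ ?_ ?_
  · rw [Finset.card_image_of_injOn hinj] at hfin
    refine hcard.trans ?_
    gcongr
  · intro d hd
    obtain ⟨a, _, rfl⟩ := Finset.mem_image.1 hd
    exact hsize a
  · intro d hd d' hd' hne
    obtain ⟨a, _, rfl⟩ := Finset.mem_image.1 hd
    obtain ⟨a', _, rfl⟩ := Finset.mem_image.1 hd'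
    exact hsepc a a' (fun h => hne (by rw [h]))
  · intro d hd
    obtain ⟨a, ha, rfl⟩ := Finset.mem_image.1 hd
    exact hclose a ha

private theorem k_large (c K M : ℝ) (hc : 0 < c) (hK : 1 ≤ K) :
    ∃ k₀ : ℕ, ∀ k : ℕ, k₀ ≤ k → 1 ≤ k ∧ 1 / (k : ℝ) ^ 11 ≤ c ^ 2 ∧
      K * (k : ℝ) ^ 481 ≤ c * 2 ^ (Nat.sqrt k) ∧ M < 2 ^ (Nat.sqrt k) := by
  have h1 := tendsto_pow_const_div_const_pow_of_one_lt 962 (r := (2 : ℝ)) (by norm_num)
  have h2 : (0 : ℝ) < c / (2 * K) := by positivity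
  have h3 := (h1.eventually_lt_const h2)
  obtain ⟨m₀, hm₀⟩ := Filter.eventually_atTop.1 h3
  obtain ⟨m₁, hm₁⟩ := exists_nat_gt M
  obtain ⟨k₁, hk₁⟩ := exists_nat_gt (1 / c ^ 2)
  refine ⟨1 + (m₀ + m₁) ^ 2 + k₁, fun k hk => ?_⟩
  have hk1 : 1 ≤ k := by
    have : 0 ≤ (m₀ + m₁) ^ 2 := Nat.zero_le _
    omega
  have hk1' : (1 : ℝ) ≤ k := by exact_mod_cast hk1
  have hsq : m₀ + m₁ ≤ Nat.sqrt k := by
    rw [Nat.le_sqrt']
    omega
  refine ⟨hk1, ?_, ?_, ?_⟩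
  · have h4 : 1 / c ^ 2 ≤ (k : ℝ) := by
      have : (k₁ : ℝ) ≤ k := by
        have : k₁ ≤ k := by omega
        exact_mod_cast this
      linarith
    have h5 : (k : ℝ) ≤ (k : ℝ) ^ 11 := le_self_pow₀ hk1' (by norm_num)
    rw [div_le_iff₀ (by positivity)]
    rw [div_le_iff₀ (by positivity)] at h4
    nlinarith [sq_nonneg c, h5, h4, sq_pos_of_pos hc]
  · have h4 := hm₀ (Nat.sqrt k + 1) (by omega)
    have h5 : (k : ℝ) ≤ ((Nat.sqrt k + 1 : ℕ) : ℝ) ^ 2 := by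
      have := Nat.lt_succ_sqrt' k
      exact_mod_cast this.le
    have h6 : (k : ℝ) ^ 481 ≤ ((Nat.sqrt k + 1 : ℕ) : ℝ) ^ 962 := by
      calc (k : ℝ) ^ 481 ≤ (((Nat.sqrt k + 1 : ℕ) : ℝ) ^ 2) ^ 481 := by gcongr
        _ = ((Nat.sqrt k + 1 : ℕ) : ℝ) ^ 962 := by rw [← pow_mul]
    rw [div_lt_div_iff₀ (by positivity) (by positivity)] at h4
    rw [pow_succ (2 : ℝ)] at h4
    nlinarith [h4, h6, hK]
  · have h4 : Nat.sqrt k < 2 ^ (Nat.sqrt k) := Nat.lt_two_pow_self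
    have h5 : (m₁ : ℝ) ≤ (Nat.sqrt k : ℝ) := by
      have : m₁ ≤ Nat.sqrt k := by omega
      exact_mod_cast this
    have h6 : ((Nat.sqrt k : ℕ) : ℝ) < 2 ^ (Nat.sqrt k) := by exact_mod_cast h4
    linarith

private theorem t_small (a ε : ℝ) (ha : 0 ≤ a) (hε : 0 < ε) :
    ∃ t : ℝ, 0 < t ∧ t ≤ 1 ∧ (Real.exp (6 * t) - 1) * (a + ε) ≤ ε / 2 := by
  refine ⟨min (1 / 6) (ε / (24 * (a + ε))), by positivity, (min_le_left _ _).trans (by norm_num), ?_⟩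
  set t := min (1 / 6) (ε / (24 * (a + ε))) with ht
  have h1 : t ≤ 1 / 6 := min_le_left _ _
  have h2 : t ≤ ε / (24 * (a + ε)) := min_le_right _ _
  have h0 : 0 < t := by positivity
  have h3 : |Real.exp (6 * t) - 1| ≤ 2 * |6 * t| := Real.abs_exp_sub_one_le (by
    rw [abs_of_pos (by positivity)]
    linarith)
  rw [abs_of_pos (by positivity : 0 < 6 * t)] at h3
  have h4 := (abs_le.1 h3).2
  rw [le_div_iff₀ (by positivity)] at h2
  have h5 : 0 < a + ε := by positivity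
  nlinarith

theorem lines7 {b : B} (h : QNb b) (hb : ∀ n : ℕ, b ^ n ≠ 0) (p : ℕ) :
    ∃ εb : ℝ, 0 < εb ∧ ∀ K₁ : ℕ, 1 ≤ K₁ → ∃ k₀ : ℕ, ∀ k : ℕ, k₀ ≤ k → ∀ θ : Fin 7 → ℝ,
      (∀ i, |θ i - θ 0| ≤ 1 / (k : ℝ) ^ 139) → (∀ i j, i ≠ j → 1 / (k : ℝ) ^ 147 ≤ |θ i - θ j|) →
      ∀ S : Fin 7 → Finset G,
      (∀ i j l, i ≠ j → j ≠ l → i ≠ l → ∀ x ∈ S i, ∀ y ∈ S j, ∀ z ∈ S l,
        NR b p εb (Ew (θ i) (toC x / K₁) + Ew (θ j) (toC y / K₁) + Ew (θ l) (toC z / K₁))) →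
      ∀ (q β : Fin 7 → ℂ) (g L : ℝ), (∀ i, ‖β i‖ = 1) → 2 ^ (Nat.sqrt k) ≤ g → g ^ 11 ≤ L →
      (∀ i, LineDense (S i) (q i) (β i) g L) → False := by
  obtain ⟨c, hc, B₁, hest⟩ := est
  set B₀ : ℝ := max B₁ 0 with hB₀
  obtain ⟨δ, hδ, hδ10, hcf⟩ := count_four (8 * (3 * B₀))
  obtain ⟨T, Θ, hTδ, hΘ, hli⟩ := model_b h hb p hδ
  have hT : ‖T‖ ≤ 1 / 10 := hTδ.trans hδ10
  set z₀ : Hil := Θ (b ^ p) with hz₀
  have hz₀ne : z₀ ≠ 0 := by
    have := hli.ne_zero 0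
    simpa using this
  obtain ⟨ε, hε, C₁, hcount₁⟩ := hcf T hTδ z₀ hli
  set C : ℝ := max C₁ 0 with hC
  have hC0 : 0 ≤ C := le_max_right _ _
  obtain ⟨t, ht, ht1, hκ⟩ := t_small ‖z₀‖ ε (norm_nonneg _) hε
  refine ⟨ε / (2 * (‖Θ‖ + 1)), by positivity, fun K₁ hK₁ => ?_⟩
  have hK₁' : (1 : ℝ) ≤ K₁ := by exact_mod_cast hK₁
  obtain ⟨k₀, hk₀⟩ := k_large c K₁ (144 * C * 4 ^ 6 / t ^ 6) hc hK₁'
  refine ⟨k₀, fun k hk θ hθ1 hθ2 S hnr q β g L hβ hg hL hLD => ?_⟩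
  obtain ⟨hk1, hk2, hk3, hk4⟩ := hk₀ k hk
  have hk1' : (1 : ℝ) ≤ k := by exact_mod_cast hk1
  have hkpos : (0 : ℝ) < k := by linarith
  have hg1 : 1 ≤ g := le_trans (one_le_pow₀ (by norm_num)) hg
  have hg0 : 0 < g := by linarith
  have hL1 : 1 ≤ L := le_trans (one_le_pow₀ hg1) hL
  have hL0 : 0 < L := by linarith
  -- the choice of three angles
  set s : ℝ := Real.sqrt (1 / (k : ℝ) ^ 139) with hs
  have hs2 : s ^ 2 = 1 / (k : ℝ) ^ 139 := Real.sq_sqrt (by positivity)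
  have hspos : 0 < s := Real.sqrt_pos.2 (by positivity)
  set μ : ℝ := 1 / (k : ℝ) ^ 8 with hμ
  have hμpos : 0 < μ := by positivity
  have hμ1 : μ ≤ 1 := by
    rw [hμ, div_le_one (by positivity)]
    exact one_le_pow₀ hk1'
  have hμ8 : μ ^ 8 = 1 / (k : ℝ) ^ 64 := by
    rw [hμ, div_pow, one_pow, ← pow_mul]
  have hsμ : s ≤ c * μ ^ 8 := by
    apply le_of_sq_le_sq _ (by positivity)
    rw [hs2, mul_pow, hμ8, div_pow, one_pow, ← pow_mul]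
    have h1 : (1 : ℝ) / (k : ℝ) ^ 139 = 1 / (k : ℝ) ^ 11 * (1 / (k : ℝ) ^ (64 * 2)) := by
      rw [div_mul_div_comm, one_mul, ← pow_add]
    rw [h1]
    gcongr
  obtain ⟨e, he, hR⟩ := hest s μ hspos hμpos hμ1 hsμ θ β (fun i => by rw [hs2]; exact hθ1 i)
    (fun i j hij => by
      have h1 : s ^ 2 * μ = 1 / (k : ℝ) ^ 147 := by
        rw [hs2, hμ, div_mul_div_comm, one_mul, ← pow_add]
      rw [h1]
      exact hθ2 i j hij) hβ
  set R : (Fin 3 → ℝ) →ₗ[ℝ] Ex := Rl (fun i => θ (e i)) (fun i => β (e i)) with hRdef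
  have hW : ∀ r j, ‖R r j‖ ≤ B₀ * ‖prj (R r)‖ := by
    intro r j
    refine ((hR r).1 j).trans ?_
    exact mul_le_mul_of_nonneg_right (le_max_left _ _) (norm_nonneg _)
  have hlow : ∀ r i, c * s ^ 6 * μ ^ 8 * |r i| ≤ ‖prj (R r)‖ := fun r i => (hR r).2 i
  have hup : ∀ r, ‖R r‖ ≤ ∑ i, |r i| := fun r => Rl_le (fun i => (hβ _).le) r
  -- the error map
  set E : (Fin 3 → ℂ) → Ex := fun f => ∑ i, Ew (θ (e i)) (f i) with hEdef
  have hE : ∀ f f', ‖E f - E f'‖ ≤ ∑ i, ‖f i - f' i‖ := by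
    intro f f'
    have h1 : E f - E f' = ∑ i, Ew (θ (e i)) (f i - f' i) := by
      rw [hEdef]
      simp only []
      rw [← Finset.sum_sub_distrib]
      exact Finset.sum_congr rfl fun i _ => (Ew_sub _ _ _).symm
    rw [h1]
    exact (norm_sum_le _ _).trans (Finset.sum_le_sum fun i _ => Ew_norm _ _)
  -- the points
  set n : ℕ := ⌊L / g⌋₊ with hn
  have hnL : g * n ≤ L := by
    have h1 := Nat.floor_le (div_nonneg hL0.le hg0.le)
    rw [← hn, le_div_iff₀ hg0] at h1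
    linarith
  have hn1 : L / g < n + 1 := Nat.lt_floor_add_one _
  have hpt : ∀ (a : Fin 3 → Fin (n + 1)) (i : Fin 3), ∃ z ∈ S (e i),
      ‖toC z - (q (e i) + ((g * ((a i : ℕ) : ℝ) : ℝ) : ℂ) * β (e i))‖ ≤ g := by
    intro a i
    refine hLD (e i) (g * ((a i : ℕ) : ℝ)) ?_
    have h4 : ((a i : ℕ) : ℝ) ≤ n := by
      have := (a i).2
      exact_mod_cast Nat.lt_succ_iff.1 this
    rw [abs_of_nonneg (by positivity)]
    exact le_trans (by gcongr) hnL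
  choose z hzS hz using hpt
  set f : (Fin 3 → Fin (n + 1)) → Fin 3 → ℂ := fun a i =>
    (toC (z a i) - (q (e i) + ((g * ((a i : ℕ) : ℝ) : ℝ) : ℂ) * β (e i))) / K₁ with hfdef
  have hf : ∀ a i, ‖f a i‖ ≤ g := by
    intro a i
    rw [hfdef]
    simp only []
    rw [norm_div, Complex.norm_natCast]
    exact (div_le_self (norm_nonneg _) hK₁').trans (hz a i)
  set x₀ : Ex := ∑ i, Ew (θ (e i)) (q (e i) / K₁) with hx₀
  have hx : ∀ a : Fin 3 → Fin (n + 1), x₀ + R (fun i => g * ((a i : ℕ) : ℝ) / K₁) + E (f a) =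
      ∑ i, Ew (θ (e i)) (toC (z a i) / K₁) := by
    intro a
    rw [hx₀, hRdef, Rl_apply, hEdef]
    simp only []
    rw [← Finset.sum_add_distrib, ← Finset.sum_add_distrib]
    refine Finset.sum_congr rfl fun i _ => ?_
    rw [← Ew_add, ← Ew_add]
    congr 1
    rw [hfdef]
    push_cast
    have hKne : (K₁ : ℂ) ≠ 0 := by
      have : K₁ ≠ 0 := by omega
      exact_mod_cast this
    field_simp
    ring
  have hnear : ∀ a : Fin 3 → Fin (n + 1), ∃ l : ℂ, ‖l‖ = 1 ∧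
      ‖(NormedSpace.exp (ev T (x₀ + R (fun i => g * ((a i : ℕ) : ℝ) / K₁) + E (f a)))) z₀ - l • z₀‖ ≤ ε / 2 := by
    intro a
    have h01 : e 0 ≠ e 1 := fun h => absurd (he h) (by decide)
    have h12 : e 1 ≠ e 2 := fun h => absurd (he h) (by decide)
    have h02 : e 0 ≠ e 2 := fun h => absurd (he h) (by decide)
    obtain ⟨l, hl, hl2⟩ := hnr (e 0) (e 1) (e 2) h01 h12 h02 _ (hzS a 0) _ (hzS a 1) _ (hzS a 2)
    refine ⟨l, hl, ?_⟩
    rw [hx a, Fin.sum_univ_three, hz₀, ← Th_exp h hT hΘ, ← map_smul, ← map_sub]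
    refine (Θ.le_opNorm _).trans ?_
    calc ‖Θ‖ * _ ≤ ‖Θ‖ * (ε / (2 * (‖Θ‖ + 1))) := mul_le_mul_of_nonneg_left hl2 (norm_nonneg _)
      _ ≤ ε / 2 := by
        rw [mul_div_assoc', div_le_div_iff₀ (by positivity) (by positivity)]
        nlinarith [norm_nonneg Θ]
  have hcore := core7 (C := C) hT (le_max_right B₁ 0) hz₀ne hε (fun S hS y hy L hL F h1 h2 h3 =>
      (hcount₁ S hS y hy L hL F h1 h2 h3).trans
        (mul_le_mul_of_nonneg_right (le_max_left _ _) (by positivity)))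
    hW (lam := c * s ^ 6 * μ ^ 8) (by positivity) hlow hup E hE ht (ht1.trans hg1) hκ hK₁' (by
      have h1 : s ^ 6 = 1 / (k : ℝ) ^ 417 := by
        have : s ^ 6 = (s ^ 2) ^ 3 := by ring
        rw [this, hs2, div_pow, one_pow, ← pow_mul]
      rw [h1, hμ8]
      have h2 : c * (1 / (k : ℝ) ^ 417) * (1 / (k : ℝ) ^ 64) * (g / K₁) = c * g / (K₁ * (k : ℝ) ^ 481) := by
        have : (k : ℝ) ^ 481 = (k : ℝ) ^ 417 * (k : ℝ) ^ 64 := by rw [← pow_add]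
        rw [this]
        field_simp
      rw [h2, le_div_iff₀ (by positivity), one_mul]
      refine hk3.trans ?_
      gcongr) n x₀ f hf hnear hL1 hnL
  -- the contradiction
  have h1 : (L / g) ^ 3 ≤ ((n : ℝ) + 1) ^ 3 := by
    have : 0 ≤ L / g := by positivity
    gcongr
  have h2 := h1.trans hcore
  have h3 : (4 * g / t) ^ 6 * (C * (12 * L) ^ 2) = (144 * C * 4 ^ 6 / t ^ 6) * g ^ 6 * L ^ 2 := by
    field_simp
    ring
  rw [h3, div_pow, div_le_iff₀ (by positivity)] at h2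
  have h4 : 144 * C * 4 ^ 6 / t ^ 6 < g ^ 2 := by
    have h5 : 144 * C * 4 ^ 6 / t ^ 6 < g := hk4.trans_le hg
    nlinarith
  have h5 : L ^ 3 < L ^ 2 * g ^ 11 := by
    calc L ^ 3 ≤ (144 * C * 4 ^ 6 / t ^ 6) * g ^ 6 * L ^ 2 * g ^ 3 := h2
      _ = (144 * C * 4 ^ 6 / t ^ 6) * (g ^ 9 * L ^ 2) := by ring
      _ < g ^ 2 * (g ^ 9 * L ^ 2) := by
        have : 0 < g ^ 9 * L ^ 2 := by positivity
        exact mul_lt_mul_of_pos_right h4 this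
      _ = L ^ 2 * g ^ 11 := by ring
  have h6 : L < g ^ 11 := by
    have h7 : L ^ 2 * L < L ^ 2 * g ^ 11 := by
      calc L ^ 2 * L = L ^ 3 := by ring
        _ < _ := h5
    exact lt_of_mul_lt_mul_left h7 (by positivity)
  linarith

end Pool.Agent.Work.MP_0d53be_an.Full
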