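import Mathlib

/-!
# L/Plu: lower bound for the coefficients of the polynomial of a pair of lines

`ee x y u = x γ(u) + y γ'(u)`, `γ(u) = (1, u, u², u³)`, `γ'(u) = (0, 1, 2u, 3u²)`.
For `a, b : Fin 4 → ℝ` put `V i j = a i b j - a j b i` and
`pc a b = ![V 2 3, -2 V 1 3, 3 V 1 2 + V 0 3, -2 V 0 2, V 0 1]`.
(Then `∑_i pc a b i t^i = det (a, b, γ(t), γ'(t))`.)

Let `|u|, |v| ≤ 1`, `μ ≤ |u - v|`, `0 < μ`, `x² + y² = 1`, `z² + w² = 1`, `a = ee x y u`, `b = ee z w v`.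
Then some coefficient has absolute value at least `μ⁴/480`.

Proof. (1) Some `|V i j| ≥ μ⁴/120`. Let `a' = ee (-y) x u`, `b' = ee (-w) z v`, `W i j = a' i b' j - a' j b' i`.
Then `V 0 1 W 2 3 - V 0 2 W 1 3 + V 0 3 W 1 2 + V 1 2 W 0 3 - V 1 3 W 0 2 + V 2 3 W 0 1
= - (x² + y²) (z² + w²) (v - u)⁴` (up to sign; polynomial identity, `ring`; check the sign: for
`x = z = 1`, `y = w = 0` it is `γ(u) ∧ γ(v) ∧ γ'(u) ∧ γ'(v)`), and `|a' i| ≤ |y| + 3|x| ≤ √10`,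
`|W i j| ≤ 20`, so `μ⁴ ≤ 6 * 20 * max |V|`.
(2) Plücker relation `V 0 1 V 2 3 - V 0 2 V 1 3 + V 0 3 V 1 2 = 0` (`ring`). If all coefficients were
`< η` (`η = μ⁴/480`) in absolute value, then `|V 0 1|, |V 2 3| < η`, `|V 0 2|, |V 1 3| < η/2`,
`V 0 3 = -3 V 1 2 + δ` with `|δ| < η`, so `3 (V 1 2)² = δ V 1 2 + V 0 1 V 2 3 - V 0 2 V 1 3`, hence
`3 (V 1 2)² ≤ η |V 1 2| + (5/4) η²`, `|V 1 2| < η` and `|V 0 3| < 4 η = μ⁴/120`: contradiction with (1).
-/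

set_option autoImplicit false

namespace Pool.Agent.Work.MP_0d53be_an.Full

/-- The vectors `x γ(u) + y γ'(u)`. -/
def ee (x y u : ℝ) : Fin 4 → ℝ := ![x, x * u + y, x * u ^ 2 + 2 * y * u, x * u ^ 3 + 3 * y * u ^ 2]

/-- The coefficients of `det (a, b, γ(t), γ'(t))`. -/
def pc (a b : Fin 4 → ℝ) : Fin 5 → ℝ :=
  ![a 2 * b 3 - a 3 * b 2, -2 * (a 1 * b 3 - a 3 * b 1),
    3 * (a 1 * b 2 - a 2 * b 1) + (a 0 * b 3 - a 3 * b 0), -2 * (a 0 * b 2 - a 2 * b 0),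
    a 0 * b 1 - a 1 * b 0]

private theorem plu_w {a0 a1 b0 b1 : ℝ} (h0 : |a0| ≤ 4) (h1 : |a1| ≤ 4) (k0 : |b0| ≤ 4)
    (k1 : |b1| ≤ 4) : |a0 * b1 - a1 * b0| ≤ 32 := by
  have e1 : |a0 * b1| ≤ 16 := by
    rw [abs_mul]
    nlinarith [abs_nonneg a0, abs_nonneg b1]
  have e2 : |a1 * b0| ≤ 16 := by
    rw [abs_mul]
    nlinarith [abs_nonneg a1, abs_nonneg b0]
  exact (abs_sub _ _).trans (by linarith)

private theorem plu_c {x y u : ℝ} (hu : |u| ≤ 1) (h1 : x ^ 2 + y ^ 2 = 1) (i : Fin 4) :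
    |ee x y u i| ≤ 4 := by
  have hx : |x| ≤ 1 := by
    rw [← sq_le_one_iff_abs_le_one]
    nlinarith [sq_nonneg y]
  have hy : |y| ≤ 1 := by
    rw [← sq_le_one_iff_abs_le_one]
    nlinarith [sq_nonneg x]
  have key : ∀ (k : ℝ) (n m : ℕ), 0 ≤ k → k ≤ 3 → |x * u ^ n + k * y * u ^ m| ≤ 4 := by
    intro k n m hk hk3
    have e1 : |x * u ^ n| ≤ 1 := by
      rw [abs_mul, abs_pow]
      exact mul_le_one₀ hx (by positivity) (pow_le_one₀ (abs_nonneg _) hu)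
    have e2 : |y * u ^ m| ≤ 1 := by
      rw [abs_mul, abs_pow]
      exact mul_le_one₀ hy (by positivity) (pow_le_one₀ (abs_nonneg _) hu)
    have e3 : |k * y * u ^ m| ≤ 3 := by
      rw [mul_assoc, abs_mul, abs_of_nonneg hk]
      nlinarith [abs_nonneg (y * u ^ m)]
    exact (abs_add_le _ _).trans (by linarith)
  fin_cases i
  · have := key 0 0 0 le_rfl (by norm_num)
    simpa [ee] using this
  · have := key 1 1 0 (by norm_num) (by norm_num)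
    simpa [ee] using this
  · have := key 2 2 1 (by norm_num) (by norm_num)
    simpa [ee] using this
  · have := key 3 3 2 (by norm_num) (by norm_num)
    simpa [ee] using this

private theorem plu_alg {V01 V02 V03 V12 V13 V23 η : ℝ} (hη : 0 < η)
    (hP : V01 * V23 - V02 * V13 + V03 * V12 = 0) (h23 : |V23| < η) (h13 : |-2 * V13| < η)
    (h03 : |3 * V12 + V03| < η) (h02 : |-2 * V02| < η) (h01 : |V01| < η) :
    |V01| + |V02| + |V03| + |V12| + |V13| + |V23| < 8 * η := by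
  rw [abs_mul, abs_neg, abs_two] at h13 h02
  have hp : |V12| < η := by
    by_contra hcon
    push Not at hcon
    have e1 : 3 * V12 ^ 2 = (3 * V12 + V03) * V12 + (V01 * V23 - V02 * V13) := by
      linear_combination (-1) * hP
    have e2 : |(3 * V12 + V03) * V12| ≤ η * |V12| := by
      rw [abs_mul]
      exact mul_le_mul_of_nonneg_right h03.le (abs_nonneg _)
    have e3 : |V01 * V23| ≤ η * η := by
      rw [abs_mul]
      exact mul_le_mul h01.le h23.le (abs_nonneg _) hη.le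
    have e4 : |V02 * V13| ≤ (η / 2) * (η / 2) := by
      rw [abs_mul]
      exact mul_le_mul (by linarith) (by linarith) (abs_nonneg _) (by linarith)
    have e5 : 3 * |V12| ^ 2 ≤ η * |V12| + (η * η + (η / 2) * (η / 2)) := by
      rw [sq_abs, e1]
      have f1 := le_abs_self ((3 * V12 + V03) * V12)
      have f2 := le_abs_self (V01 * V23)
      have f3 := neg_abs_le (V02 * V13)
      linarith
    nlinarith
  have hq : |V03| ≤ 4 * η := by
    have e1 : V03 = (3 * V12 + V03) - 3 * V12 := by ring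
    rw [e1]
    refine (abs_sub _ _).trans ?_
    rw [abs_mul, abs_of_pos (by norm_num : (0 : ℝ) < 3)]
    linarith
  linarith

theorem plu {u v x y z w μ : ℝ} (hu : |u| ≤ 1) (hv : |v| ≤ 1) (h0 : 0 < μ) (h : μ ≤ |u - v|)
    (h1 : x ^ 2 + y ^ 2 = 1) (h2 : z ^ 2 + w ^ 2 = 1) :
    ∃ i, μ ^ 4 / 480 ≤ |pc (ee x y u) (ee z w v) i| := by
  by_contra hcon
  push Not at hcon
  have hη : 0 < μ ^ 4 / 480 := by positivity
  set a := ee x y u with ha
  set b := ee z w v with hb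
  set a' := ee (-y) x u with ha'
  set b' := ee (-w) z v with hb'
  have c0 := hcon 0
  have c1 := hcon 1
  have c2 := hcon 2
  have c3 := hcon 3
  have c4 := hcon 4
  simp only [pc, Matrix.cons_val] at c0 c1 c2 c3 c4
  have hP : (a 0 * b 1 - a 1 * b 0) * (a 2 * b 3 - a 3 * b 2) -
      (a 0 * b 2 - a 2 * b 0) * (a 1 * b 3 - a 3 * b 1) +
      (a 0 * b 3 - a 3 * b 0) * (a 1 * b 2 - a 2 * b 1) = 0 := by ring
  have hsum := plu_alg hη hP c0 c1 c2 c3 c4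
  have hdet : (a 0 * b 1 - a 1 * b 0) * (a' 2 * b' 3 - a' 3 * b' 2) -
      (a 0 * b 2 - a 2 * b 0) * (a' 1 * b' 3 - a' 3 * b' 1) +
      (a 0 * b 3 - a 3 * b 0) * (a' 1 * b' 2 - a' 2 * b' 1) +
      (a 1 * b 2 - a 2 * b 1) * (a' 0 * b' 3 - a' 3 * b' 0) -
      (a 1 * b 3 - a 3 * b 1) * (a' 0 * b' 2 - a' 2 * b' 0) +
      (a 2 * b 3 - a 3 * b 2) * (a' 0 * b' 1 - a' 1 * b' 0) =
      - ((x ^ 2 + y ^ 2) * (z ^ 2 + w ^ 2) * (v - u) ^ 4) := by
    simp only [ha, hb, ha', hb', ee, Matrix.cons_val]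
    ring
  rw [h1, h2, one_mul, one_mul] at hdet
  have A : ∀ i, |a' i| ≤ 4 := plu_c hu (by rw [neg_sq, add_comm]; exact h1)
  have B : ∀ i, |b' i| ≤ 4 := plu_c hv (by rw [neg_sq, add_comm]; exact h2)
  have hμ4 : μ ^ 4 ≤ (v - u) ^ 4 := by
    have e1 : (v - u) ^ 4 = |u - v| ^ 4 := by
      rw [← abs_pow, abs_of_nonneg (by positivity)]
      ring
    rw [e1]
    exact pow_le_pow_left₀ h0.le h 4
  have key : ∀ V W : ℝ, |W| ≤ 32 → |V * W| ≤ 32 * |V| := by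
    intro V W hW
    rw [abs_mul, mul_comm]
    exact mul_le_mul_of_nonneg_right hW (abs_nonneg _)
  have k1 := abs_le.1 (key (a 0 * b 1 - a 1 * b 0) _ (plu_w (A 2) (A 3) (B 2) (B 3)))
  have k2 := abs_le.1 (key (a 0 * b 2 - a 2 * b 0) _ (plu_w (A 1) (A 3) (B 1) (B 3)))
  have k3 := abs_le.1 (key (a 0 * b 3 - a 3 * b 0) _ (plu_w (A 1) (A 2) (B 1) (B 2)))
  have k4 := abs_le.1 (key (a 1 * b 2 - a 2 * b 1) _ (plu_w (A 0) (A 3) (B 0) (B 3)))
  have k5 := abs_le.1 (key (a 1 * b 3 - a 3 * b 1) _ (plu_w (A 0) (A 2) (B 0) (B 2)))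
  have k6 := abs_le.1 (key (a 2 * b 3 - a 3 * b 2) _ (plu_w (A 0) (A 1) (B 0) (B 1)))
  have hμpos : 0 < μ ^ 4 := by positivity
  linarith [k1.1, k1.2, k2.1, k2.2, k3.1, k3.2, k4.1, k4.2, k5.1, k5.2, k6.1, k6.2]

end Pool.Agent.Work.MP_0d53be_an.Full
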