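import Pool.Agent.Work.MP_0d53be_an.Full.X.Ev

/-!
# L/RDef: the projection and the three directions

`prj x = (2 x_0, 4 x_1)` (the coefficients of `b` and `b²`), `ℂ × ℂ` has the maximum norm.
`Rl θ β r = ∑_i Ew (θ i) (r i β i)` is real-linear in `r : Fin 3 → ℝ` (`Ew_add`, `Ew_smul`).
`prj_le`: `‖2 x 0‖ ≤ 2‖x‖`, `‖4 x 1‖ ≤ 4‖x‖` (`norm_coord_le`).
`Rl_le`: `‖Ew (θ i) (r i β i)‖ ≤ |r i| ‖β i‖` (`Ew_norm`).
-/

set_option autoImplicit false

namespace Pool.Agent.Work.MP_0d53be_an.Full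

/-- The coefficients of `b` and `b²`. -/
noncomputable def prj : Ex →ₗ[ℝ] ℂ × ℂ where
  toFun x := (2 * x 0, 4 * x 1)
  map_add' x y := by
    change (2 * (x 0 + y 0), 4 * (x 1 + y 1)) = (2 * x 0 + 2 * y 0, 4 * x 1 + 4 * y 1)
    rw [mul_add, mul_add]
  map_smul' r x := by
    change (2 * (r • x 0), 4 * (r • x 1)) = (r • (2 * x 0), r • (4 * x 1))
    rw [mul_smul_comm, mul_smul_comm]

theorem prj_apply (x : Ex) : prj x = (2 * x 0, 4 * x 1) := rfl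

/-- The sum of three displacements with real lengths. -/
noncomputable def Rl (θ : Fin 3 → ℝ) (β : Fin 3 → ℂ) : (Fin 3 → ℝ) →ₗ[ℝ] Ex where
  toFun r := ∑ i, Ew (θ i) (r i * β i)
  map_add' r s := by
    rw [← Finset.sum_add_distrib]
    refine Finset.sum_congr rfl (fun i _ => ?_)
    rw [← Ew_add, ← add_mul, Pi.add_apply, Complex.ofReal_add]
  map_smul' c r := by
    rw [Finset.smul_sum]
    refine Finset.sum_congr rfl (fun i _ => ?_)
    rw [Pi.smul_apply, smul_eq_mul, Complex.ofReal_mul, mul_assoc, Ew_smul]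
    rfl

theorem Rl_apply (θ : Fin 3 → ℝ) (β : Fin 3 → ℂ) (r : Fin 3 → ℝ) :
    Rl θ β r = ∑ i, Ew (θ i) (r i * β i) := rfl

theorem prj_le (x : Ex) : ‖prj x‖ ≤ 4 * ‖x‖ := by
  rw [prj_apply, Prod.norm_def]
  have h0 := norm_coord_le x 0
  have h1 := norm_coord_le x 1
  have h2 := norm_nonneg x
  refine max_le ?_ ?_
  · change ‖2 * x 0‖ ≤ 4 * ‖x‖
    rw [norm_mul, Complex.norm_ofNat]
    linarith
  · change ‖4 * x 1‖ ≤ 4 * ‖x‖
    rw [norm_mul, Complex.norm_ofNat]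
    linarith

theorem Rl_le {θ : Fin 3 → ℝ} {β : Fin 3 → ℂ} (hβ : ∀ i, ‖β i‖ ≤ 1) (r : Fin 3 → ℝ) :
    ‖Rl θ β r‖ ≤ ∑ i, |r i| := by
  rw [Rl_apply]
  refine (norm_sum_le _ _).trans (Finset.sum_le_sum fun i _ => ?_)
  refine (Ew_norm _ _).trans ?_
  rw [norm_mul, Complex.norm_real, Real.norm_eq_abs]
  have h := mul_le_mul_of_nonneg_left (hβ i) (abs_nonneg (r i))
  rwa [mul_one] at h

end Pool.Agent.Work.MP_0d53be_an.Full
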