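import Pool.Agent.Work.MP_0d53be_an.Full.L.Plu
import Pool.Agent.Work.MP_0d53be_an.Full.L.Lag

/-!
# L/Wedge: three well conditioned vectors among seven

There is `c > 0` such that for `0 < μ ≤ 1`, `u x y : Fin 7 → ℝ` with `|u i| ≤ 1`, `|u i - u j| ≥ μ`
(`i ≠ j`), `x i² + y i² = 1` there is an injective `e : Fin 3 → Fin 7` such that for all
`r : Fin 3 → ℝ` and all `i` there is `l ≤ 3` with
`c μ⁸ |r i| ≤ |∑_i r_i (x_{e i} u_{e i}^l + l y_{e i} u_{e i}^(l-1))|`.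

Proof. `a = ee (x 0) (y 0) (u 0)`, `b = ee (x 1) (y 1) (u 1)`. By `plu` some `|pc a b i| ≥ μ⁴/480`; by `lag`
with `t = (u 2, …, u 6)` there is `j ∈ {2, …, 6}` with `|P(u_j)| ≥ μ⁸/48000`,
`P(t) = ∑_i pc a b i t^i`. Take `e = ![0, 1, j]`. Let `e₁ = a`, `e₂ = b`, `e₃ = ee (x j) (y j) (u j)`,
`e₃' = ee (-(y j)) (x j) (u j)`; all coordinates of these vectors are at most `|x| + 3|y| ≤ 4` in
absolute value. `det (e₁, e₂, e₃, e₃') = (x_j² + y_j²) P(u_j) = P(u_j)` (polynomial identity; the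
determinant as an explicit polynomial, 24 terms or `Matrix.det_succ_row_zero`, `ring`). Let
`z = ∑ r_i e_i`, i.e. `z_l = ∑ r_i (x_i u_i^l + l y_i u_i^(l-1))`, `l = 0, 1, 2, 3` and `Z = max |z_l|`. Then
`r 0 P(u_j) = det (z, e₂, e₃, e₃')`, `r 1 P(u_j) = det (e₁, z, e₃, e₃')`,
`r 2 P(u_j) = det (e₁, e₂, z, e₃')` (multilinearity; or `ring`), and each determinant is at most
`24 * 4³ Z = 1536 Z`. So `|r i| μ⁸/48000 ≤ 1536 Z`: `c = 1/(48000 * 1536)`, `l` where the maximum is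
attained.
-/

set_option autoImplicit false

namespace Pool.Agent.Work.MP_0d53be_an.Full

/-- the determinant of four vectors (Laplace expansion). -/
private def wd4 (a b c d : Fin 4 → ℝ) : ℝ :=
  (a 0 * b 1 - a 1 * b 0) * (c 2 * d 3 - c 3 * d 2) -
    (a 0 * b 2 - a 2 * b 0) * (c 1 * d 3 - c 3 * d 1) +
    (a 0 * b 3 - a 3 * b 0) * (c 1 * d 2 - c 2 * d 1) +
    (a 1 * b 2 - a 2 * b 1) * (c 0 * d 3 - c 3 * d 0) -
    (a 1 * b 3 - a 3 * b 1) * (c 0 * d 2 - c 2 * d 0) +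
    (a 2 * b 3 - a 3 * b 2) * (c 0 * d 1 - c 1 * d 0)

private theorem wd_w {a0 a1 b0 b1 p q : ℝ} (hp : 0 ≤ p) (h0 : |a0| ≤ p) (h1 : |a1| ≤ p)
    (k0 : |b0| ≤ q) (k1 : |b1| ≤ q) : |a0 * b1 - a1 * b0| ≤ 2 * (p * q) := by
  have e1 : |a0 * b1| ≤ p * q := by
    rw [abs_mul]
    exact mul_le_mul h0 k1 (abs_nonneg _) hp
  have e2 : |a1 * b0| ≤ p * q := by
    rw [abs_mul]
    exact mul_le_mul h1 k0 (abs_nonneg _) hp
  exact (abs_sub _ _).trans (by linarith)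

private theorem wd_bound {a b c d : Fin 4 → ℝ} {Z : ℝ} (hZ : 0 ≤ Z) (ha : ∀ i, |a i| ≤ Z)
    (hb : ∀ i, |b i| ≤ 4) (hc : ∀ i, |c i| ≤ 4) (hd : ∀ i, |d i| ≤ 4) :
    |wd4 a b c d| ≤ 1536 * Z := by
  have key : ∀ V W : ℝ, |V| ≤ 2 * (Z * 4) → |W| ≤ 2 * (4 * 4) → |V * W| ≤ 256 * Z := by
    intro V W hV hW
    rw [abs_mul]
    have := mul_le_mul hV hW (abs_nonneg _) (by linarith)
    linarith
  have h4 : (0 : ℝ) ≤ 4 := by norm_num
  have k1 := abs_le.1 (key _ _ (wd_w hZ (ha 0) (ha 1) (hb 0) (hb 1))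
    (wd_w h4 (hc 2) (hc 3) (hd 2) (hd 3)))
  have k2 := abs_le.1 (key _ _ (wd_w hZ (ha 0) (ha 2) (hb 0) (hb 2))
    (wd_w h4 (hc 1) (hc 3) (hd 1) (hd 3)))
  have k3 := abs_le.1 (key _ _ (wd_w hZ (ha 0) (ha 3) (hb 0) (hb 3))
    (wd_w h4 (hc 1) (hc 2) (hd 1) (hd 2)))
  have k4 := abs_le.1 (key _ _ (wd_w hZ (ha 1) (ha 2) (hb 1) (hb 2))
    (wd_w h4 (hc 0) (hc 3) (hd 0) (hd 3)))
  have k5 := abs_le.1 (key _ _ (wd_w hZ (ha 1) (ha 3) (hb 1) (hb 3))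
    (wd_w h4 (hc 0) (hc 2) (hd 0) (hd 2)))
  have k6 := abs_le.1 (key _ _ (wd_w hZ (ha 2) (ha 3) (hb 2) (hb 3))
    (wd_w h4 (hc 0) (hc 1) (hd 0) (hd 1)))
  unfold wd4
  rw [abs_le]
  constructor
  · linarith [k1.1, k1.2, k2.1, k2.2, k3.1, k3.2, k4.1, k4.2, k5.1, k5.2, k6.1, k6.2]
  · linarith [k1.1, k1.2, k2.1, k2.2, k3.1, k3.2, k4.1, k4.2, k5.1, k5.2, k6.1, k6.2]

private theorem wd_bound2 {a b c d : Fin 4 → ℝ} {Z : ℝ} (hZ : 0 ≤ Z) (hb : ∀ i, |b i| ≤ Z)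
    (ha : ∀ i, |a i| ≤ 4) (hc : ∀ i, |c i| ≤ 4) (hd : ∀ i, |d i| ≤ 4) :
    |wd4 a b c d| ≤ 1536 * Z := by
  have h := wd_bound hZ hb ha hc hd
  have e : wd4 a b c d = - wd4 b a c d := by
    unfold wd4
    ring
  rw [e, abs_neg]
  exact h

private theorem wd_bound3 {a b c d : Fin 4 → ℝ} {Z : ℝ} (hZ : 0 ≤ Z) (hc : ∀ i, |c i| ≤ Z)
    (ha : ∀ i, |a i| ≤ 4) (hb : ∀ i, |b i| ≤ 4) (hd : ∀ i, |d i| ≤ 4) :
    |wd4 a b c d| ≤ 1536 * Z := by
  have h := wd_bound hZ hc hd ha hb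
  have e : wd4 a b c d = wd4 c d a b := by
    unfold wd4
    ring
  rw [e]
  exact h

private theorem wd_c {x y u : ℝ} (hu : |u| ≤ 1) (h1 : x ^ 2 + y ^ 2 = 1) (i : Fin 4) :
    |ee x y u i| ≤ 4 := by
  have hx : |x| ≤ 1 := by
    rw [← sq_le_one_iff_abs_le_one]
    nlinarith [sq_nonneg y]
  have hy : |y| ≤ 1 := by
    rw [← sq_le_one_iff_abs_le_one]
    nlinarith [sq_nonneg x]
  have key : ∀ (k : ℝ) (n m : ℕ), 0 ≤ k → k ≤ 3 → |x * u ^ n + k * y * u ^ m| ≤ 4 := by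
    intro k n m hk hk3
    have e1 : |x * u ^ n| ≤ 1 := by
      rw [abs_mul, abs_pow]
      exact mul_le_one₀ hx (by positivity) (pow_le_one₀ (abs_nonneg _) hu)
    have e2 : |y * u ^ m| ≤ 1 := by
      rw [abs_mul, abs_pow]
      exact mul_le_one₀ hy (by positivity) (pow_le_one₀ (abs_nonneg _) hu)
    have e3 : |k * y * u ^ m| ≤ 3 := by
      rw [mul_assoc, abs_mul, abs_of_nonneg hk]
      nlinarith [abs_nonneg (y * u ^ m)]
    exact (abs_add_le _ _).trans (by linarith)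
  fin_cases i
  · have := key 0 0 0 le_rfl (by norm_num)
    simpa [ee] using this
  · have := key 1 1 0 (by norm_num) (by norm_num)
    simpa [ee] using this
  · have := key 2 2 1 (by norm_num) (by norm_num)
    simpa [ee] using this
  · have := key 3 3 2 (by norm_num) (by norm_num)
    simpa [ee] using this

private theorem wd_P (a b : Fin 4 → ℝ) (x y u : ℝ) :
    wd4 a b (ee x y u) (ee (-y) x u) = (x ^ 2 + y ^ 2) * ∑ i, pc a b i * u ^ (i : ℕ) := by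
  rw [Fin.sum_univ_five]
  simp only [wd4, pc, ee, Matrix.cons_val, Fin.coe_ofNat_eq_mod]
  norm_num
  ring

private theorem wd_cr (r : Fin 3 → ℝ) (a b c d : Fin 4 → ℝ) :
    wd4 (fun l => r 0 * a l + r 1 * b l + r 2 * c l) b c d = r 0 * wd4 a b c d ∧
      wd4 a (fun l => r 0 * a l + r 1 * b l + r 2 * c l) c d = r 1 * wd4 a b c d ∧
      wd4 a b (fun l => r 0 * a l + r 1 * b l + r 2 * c l) d = r 2 * wd4 a b c d := by
  unfold wd4
  refine ⟨by ring, by ring, by ring⟩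

theorem wedge : ∃ c : ℝ, 0 < c ∧ ∀ μ : ℝ, 0 < μ → μ ≤ 1 → ∀ u x y : Fin 7 → ℝ,
    (∀ i, |u i| ≤ 1) → (∀ i j, i ≠ j → μ ≤ |u i - u j|) → (∀ i, x i ^ 2 + y i ^ 2 = 1) →
    ∃ e : Fin 3 → Fin 7, Function.Injective e ∧ ∀ (r : Fin 3 → ℝ) (i : Fin 3), ∃ l : ℕ, l ≤ 3 ∧
      c * μ ^ 8 * |r i| ≤
        |∑ i, r i * (x (e i) * u (e i) ^ l + l * y (e i) * u (e i) ^ (l - 1))| := by
  refine ⟨1 / (2 * 48000 * 1536), by norm_num, ?_⟩
  intro μ hμ0 hμ1 u x y hu hd h1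
  set a := ee (x 0) (y 0) (u 0) with ha
  set b := ee (x 1) (y 1) (u 1) with hb
  obtain ⟨i0, hi0⟩ := plu (hu 0) (hu 1) hμ0 (hd 0 1 (by decide)) (h1 0) (h1 1)
  rw [← ha, ← hb] at hi0
  obtain ⟨j0, hj0⟩ := lag (c := pc a b) (t := fun k : Fin 5 => u ⟨(k : ℕ) + 2, by omega⟩)
    (μ := μ) (M := μ ^ 4 / 480) (fun j => hu _) hμ0 hμ1 (fun i j hij => hd _ _ (by
      intro h
      apply hij
      have := Fin.mk.inj_iff.1 h
      exact Fin.ext (by omega))) (by positivity) ⟨i0, hi0⟩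
  have hjlt : (j0 : ℕ) + 2 < 7 := by omega
  set j : Fin 7 := ⟨(j0 : ℕ) + 2, hjlt⟩ with hj
  have hj0' : μ ^ 8 / 48000 ≤ |∑ i, pc a b i * u j ^ (i : ℕ)| := by
    refine le_trans (le_of_eq ?_) hj0
    ring
  set c := ee (x j) (y j) (u j) with hc
  set d := ee (-(y j)) (x j) (u j) with hdd
  have hP : wd4 a b c d = ∑ i, pc a b i * u j ^ (i : ℕ) := by
    rw [hc, hdd, wd_P, h1 j, one_mul]
  rw [← hP] at hj0'
  have A : ∀ i, |a i| ≤ 4 := wd_c (hu 0) (h1 0)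
  have B : ∀ i, |b i| ≤ 4 := wd_c (hu 1) (h1 1)
  have C : ∀ i, |c i| ≤ 4 := wd_c (hu j) (h1 j)
  have D : ∀ i, |d i| ≤ 4 := wd_c (hu j) (by rw [neg_sq, add_comm]; exact h1 j)
  refine ⟨![0, 1, j], ?_, ?_⟩
  · have hj2 : 2 ≤ (j : ℕ) := by
      rw [hj]
      simp
    have hj0n : j ≠ 0 := by
      intro h
      rw [h] at hj2
      simp at hj2
    have hj1n : j ≠ 1 := by
      intro h
      rw [h] at hj2
      simp at hj2
    intro p q hpq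
    fin_cases p <;> fin_cases q <;> simp_all
  · intro r i
    by_contra hcon
    push Not at hcon
    set z : Fin 4 → ℝ := fun l => r 0 * a l + r 1 * b l + r 2 * c l with hz
    set Z : ℝ := 1 / (2 * 48000 * 1536) * μ ^ 8 * |r i| with hZdef
    have hzl : ∀ l : Fin 4, |z l| < Z := by
      intro l
      have h2 := hcon l (by omega)
      rw [Fin.sum_univ_three] at h2
      refine lt_of_eq_of_lt ?_ h2
      congr 1
      rw [hz]
      fin_cases l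
      · simp [ha, hb, hc, ee]
      · simp [ha, hb, hc, ee]
      · simp [ha, hb, hc, ee]
      · simp [ha, hb, hc, ee]
    have hZ0 : 0 < Z := (abs_nonneg _).trans_lt (hzl 0)
    have hz' : ∀ l, |z l| ≤ Z := fun l => (hzl l).le
    obtain ⟨c1, c2, c3⟩ := wd_cr r a b c d
    have hmain : |r i| * |wd4 a b c d| ≤ 1536 * Z := by
      rw [← abs_mul]
      fin_cases i
      · change |r 0 * wd4 a b c d| ≤ _
        rw [← c1]
        exact wd_bound hZ0.le hz' B C D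
      · change |r 1 * wd4 a b c d| ≤ _
        rw [← c2]
        exact wd_bound2 hZ0.le hz' A C D
      · change |r 2 * wd4 a b c d| ≤ _
        rw [← c3]
        exact wd_bound3 hZ0.le hz' A B D
    have h3 : |r i| * (μ ^ 8 / 48000) ≤ |r i| * |wd4 a b c d| :=
      mul_le_mul_of_nonneg_left hj0' (abs_nonneg _)
    have h4 : Z * (2 * 1536) = |r i| * (μ ^ 8 / 48000) := by
      rw [hZdef]
      ring
    linarith

end Pool.Agent.Work.MP_0d53be_an.Full
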